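import Pool.Agent.W967.AR.Num

/-!
# Few disjoint blocks of near-twins
-/

set_option autoImplicit false

namespace Pool.Agent.W967.AR

theorem few_blocks {V ι : Type*} [Fintype V] [DecidableEq V] [DecidableEq ι] {G : SimpleGraph V}
    {k D b s : ℕ} (hN : NoHom G k) (hb : 1 ≤ b) (hs : k ≤ s * b) (I : Finset ι)
    (B : ι → Finset V) (hBc : ∀ i ∈ I, (B i).card = b)
    (hBh : ∀ i ∈ I, G.IsClique (B i : Set V) ∨ Gᶜ.IsClique (B i : Set V))
    (hdisj : ∀ i ∈ I, ∀ j ∈ I, i ≠ j → Disjoint (B i) (B j))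
    (near : ∀ i ∈ I, ∀ x ∈ B i, ∀ y ∈ B i, (Dl G x y).card ≤ D) :
    I.card < 2 * (s + k).choose s * (2 * (b * D) + 1) := by
  classical
  let conf : ι → ι → Prop := fun i j =>
    ∃ z ∈ B j, ∃ x ∈ B i, ∃ y ∈ B i, ¬ (G.Adj x z ↔ G.Adj y z)
  have hout : ∀ i ∈ I, ∀ T ⊆ I, (∀ j ∈ T, j ≠ i ∧ conf i j) → T.card ≤ b * D := by
    intro i hi T hT hTc
    obtain ⟨x0, hx0⟩ := Finset.card_pos.1 (show 0 < (B i).card by rw [hBc i hi]; omega)
    set W := (B i).biUnion (fun y => Dl G x0 y) with hW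
    have hz : ∀ j ∈ T, ∃ z ∈ B j, z ∈ W := by
      intro j hj
      obtain ⟨_, z, hz, x, hx, y, hy, hne⟩ := hTc j hj
      refine ⟨z, hz, ?_⟩
      rw [hW, Finset.mem_biUnion]
      by_cases h : G.Adj x0 z ↔ G.Adj x z
      · refine ⟨y, hy, mem_Dl.2 ?_⟩
        tauto
      · exact ⟨x, hx, mem_Dl.2 h⟩
    have : Nonempty V := ⟨x0⟩
    choose! z hzB hzW using hz
    have h1 : T.card ≤ W.card := by
      apply Finset.card_le_card_of_injOn z (fun j hj => hzW j hj)
      intro j hj j' hj' hjj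
      by_contra hne
      exact Finset.disjoint_left.1 (hdisj j (hT hj) j' (hT hj') hne) (hzB j hj)
        (hjj ▸ hzB j' hj')
    have h2 : W.card ≤ (B i).card * D := by
      apply Finset.card_biUnion_le_card_mul
      intro y hy
      exact near i hi x0 hx0 y hy
    rw [hBc i hi] at h2
    exact h1.trans h2
  by_contra hcon
  rw [not_lt] at hcon
  obtain ⟨J, hJI, hJc, hJn⟩ := exists_indep conf (b * D) (2 * (s + k).choose s) I hout hcon
  set J1 := J.filter (fun i => G.IsClique (B i : Set V)) with hJ1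
  set J2 := J.filter (fun i => ¬ G.IsClique (B i : Set V)) with hJ2
  have hsplit : J1.card + J2.card = J.card := Finset.card_filter_add_card_filter_not _
  have hun : ∀ i ∈ J, ∀ j ∈ J, i ≠ j → ∀ x ∈ B i, ∀ y ∈ B i, ∀ z ∈ B j,
      (G.Adj x z ↔ G.Adj y z) := by
    intro i hi j hj hne x hx y hy z hz
    by_contra hc
    exact hJn i hi j hj hne ⟨z, hz, x, hx, y, hy, hc⟩
  have hJ1J : J1 ⊆ J := Finset.filter_subset _ _
  have hJ2J : J2 ⊆ J := Finset.filter_subset _ _
  have h1 : J1.card < (s + k).choose s := by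
    refine final_block hN J1 B (fun O hO => hBc O (hJI (hJ1J hO))) hb
      (fun O hO => (Finset.mem_filter.1 hO).2)
      (fun O hO O' hO' h => hdisj O (hJI (hJ1J hO)) O' (hJI (hJ1J hO')) h)
      (fun O hO O' hO' h => hun O (hJ1J hO) O' (hJ1J hO') h) hs
  have h2 : J2.card < (s + k).choose s := by
    refine final_block hN.compl J2 B (fun O hO => hBc O (hJI (hJ2J hO))) hb
      (fun O hO => ?_)
      (fun O hO O' hO' h => hdisj O (hJI (hJ2J hO)) O' (hJI (hJ2J hO')) h)
      (fun O hO O' hO' h x hx y hy z hz => ?_) hs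
    · have h3 := hBh O (hJI (hJ2J hO))
      rcases h3 with h3 | h3
      · exact absurd h3 (Finset.mem_filter.1 hO).2
      · exact h3
    · have h3 := hun O (hJ2J hO) O' (hJ2J hO') h x hx y hy z hz
      have hd := Finset.disjoint_left.1 (hdisj O (hJI (hJ2J hO)) O' (hJI (hJ2J hO')) h)
      rw [SimpleGraph.compl_adj, SimpleGraph.compl_adj]
      have hxz : x ≠ z := fun h' => hd hx (h' ▸ hz)
      have hyz : y ≠ z := fun h' => hd hy (h' ▸ hz)
      tauto
  omega

open Classical in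
theorem few_blocks' {n k D b s t : ℕ} (G : SimpleGraph (Fin n)) (h1 : G.CliqueFree k)
    (h2 : Gᶜ.CliqueFree k) (hb : 1 ≤ b) (hs : k ≤ s * b)
    (B : Fin t → Finset (Fin n)) (hBc : ∀ i, (B i).card = b)
    (hBh : ∀ i, G.IsClique (B i : Set (Fin n)) ∨ Gᶜ.IsClique (B i : Set (Fin n)))
    (hdisj : ∀ i j, i ≠ j → Disjoint (B i) (B j))
    (near : ∀ i, ∀ x ∈ B i, ∀ y ∈ B i,
      (Finset.univ.filter (fun z => ¬ (G.Adj x z ↔ G.Adj y z))).card ≤ D) :
    t < 2 * (s + k).choose s * (2 * (b * D) + 1) := by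
  have := few_blocks (noHom_of_cliqueFree h1 h2) hb hs (Finset.univ : Finset (Fin t)) B
    (fun i _ => hBc i) (fun i _ => hBh i) (fun i _ j _ h => hdisj i j h) (D := D)
    (fun i _ x hx y hy => by
      have h3 := near i x hx y hy
      unfold Dl
      convert h3)
  simpa using this

end Pool.Agent.W967.AR
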