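import Pool.Agent.W967.AR.Lower

/-!
# The growth rate cannot be much smaller
-/

set_option autoImplicit false

namespace Pool.Agent.W967.AR

lemma fac_ge (b : ℕ) : ((b : ℝ) / Real.exp 1) ^ b ≤ (b.factorial : ℝ) := by
  have h := Real.pow_div_factorial_le_exp (b : ℝ) (Nat.cast_nonneg b) b
  rw [div_le_iff₀ (by exact_mod_cast Nat.factorial_pos b)] at h
  rw [div_pow, div_le_iff₀ (by positivity), ← Real.exp_nat_mul, mul_one, mul_comm]
  exact h

theorem sharp (b : ℕ) (hb : 2 ≤ b) : ∃ k₀ : ℕ, ∀ k ≥ k₀, ∃ (n : ℕ) (G : SimpleGraph (Fin n)),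
    G.CliqueFree k ∧ Gᶜ.CliqueFree k ∧
    ((b : ℝ) / Real.exp 1) ^ n ≤ Nat.card (G ≃g G) ∧
    Real.log b / (8 * b) * k ≤ Real.log n := by
  have hbR : (2 : ℝ) ≤ b := by exact_mod_cast hb
  set lb := Real.log b with hlb
  have hlb0 : 0 < lb := Real.log_pos (by linarith)
  set θ := lb / (8 * b) with hθ
  have hθ0 : 0 < θ := by positivity
  set p := lb / (2 * b) with hp
  have hpθ : p = 4 * θ := by rw [hp, hθ]; field_simp; norm_num
  have hp0 : 0 ≤ p := by positivity
  have hexp : Real.exp lb = b := Real.exp_log (by linarith)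
  have hp1 : p ≤ Real.exp (-(lb / 2)) := by
    rw [hp, div_le_iff₀ (by positivity)]
    have h1 : Real.exp (-(lb / 2)) * (2 * b) = 2 * Real.exp (lb / 2) := by
      rw [← hexp, mul_comm, mul_assoc, ← Real.exp_add]
      congr 2; ring
    rw [h1]
    have := Real.add_one_le_exp (lb / 2)
    linarith
  have hp2 : p ≤ 1 := hp1.trans (Real.exp_le_one_iff.2 (by linarith))
  set S0 := ⌈16 / lb⌉₊ + 4 with hS0
  refine ⟨b * S0 + ⌈2 / θ⌉₊ + 3, fun k hk => ?_⟩
  have hk3 : 3 ≤ k := by omega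
  have hkθ : 2 ≤ θ * k := by
    have h1 : (⌈2 / θ⌉₊ : ℝ) ≤ k := by
      have : ⌈2 / θ⌉₊ ≤ k := by omega
      exact_mod_cast this
    have h2 := (Nat.le_ceil (2 / θ)).trans h1
    rw [div_le_iff₀ hθ0] at h2
    linarith
  set s := k / b with hs
  have hbs : b * s ≤ k := Nat.mul_div_le k b
  have hks : k < b * (s + 1) := Nat.lt_mul_div_succ k (by omega)
  have hsS : S0 ≤ s := by
    rw [hs, Nat.le_div_iff_mul_le (by omega)]
    rw [mul_comm]; omega
  have hs4 : (4 : ℝ) ≤ s := by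
    have : 4 ≤ s := by omega
    exact_mod_cast this
  have hs16 : 16 ≤ lb * s := by
    have h1 : (⌈16 / lb⌉₊ : ℝ) ≤ s := by
      have : ⌈16 / lb⌉₊ ≤ s := by omega
      exact_mod_cast this
    have h2 := (Nat.le_ceil (16 / lb)).trans h1
    rw [div_le_iff₀ hlb0] at h2
    linarith
  set N := ⌊Real.exp (θ * k)⌋₊ with hN
  have hNle : (N : ℝ) ≤ Real.exp (θ * k) := Nat.floor_le (Real.exp_pos _).le
  have hNgt : Real.exp (θ * k) < N + 1 := Nat.lt_floor_add_one _
  have hθk : θ * k ≤ lb * (s + 1) / 8 := by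
    have h1 : (k : ℝ) ≤ b * (s + 1) := by exact_mod_cast hks.le
    calc θ * k ≤ θ * (b * (s + 1)) := mul_le_mul_of_nonneg_left h1 hθ0.le
      _ = lb * (s + 1) / 8 := by rw [hθ]; field_simp
  have hpow : ∀ r : ℕ, ((N.choose r : ℕ) : ℝ) ≤ Real.exp (r * (θ * k)) := by
    intro r
    calc ((N.choose r : ℕ) : ℝ) ≤ (N : ℝ) ^ r := by exact_mod_cast Nat.choose_le_pow N r
      _ ≤ (Real.exp (θ * k)) ^ r := pow_le_pow_left₀ (Nat.cast_nonneg _) hNle r
      _ = _ := by rw [← Real.exp_nat_mul]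
  have hexp2 : Real.exp (-2) ≤ 1 / 3 := by
    rw [Real.exp_neg, inv_eq_one_div]
    apply one_div_le_one_div_of_le (by norm_num)
    have := Real.add_one_le_exp (2 : ℝ)
    linarith
  have h1 : (N.choose s : ℝ) * p ^ (s.choose 2) ≤ 1 / 3 := by
    have e1 : p ^ (s.choose 2) ≤ Real.exp ((s * ((s : ℝ) - 1) / 2) * (-(lb / 2))) := by
      calc p ^ (s.choose 2) ≤ (Real.exp (-(lb / 2))) ^ (s.choose 2) :=
            pow_le_pow_left₀ hp0 hp1 _
        _ = _ := by rw [← Real.exp_nat_mul, Nat.cast_choose_two]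
    calc (N.choose s : ℝ) * p ^ (s.choose 2)
        ≤ Real.exp (s * (θ * k)) * Real.exp ((s * ((s : ℝ) - 1) / 2) * (-(lb / 2))) :=
          mul_le_mul (hpow s) e1 (by positivity) (by positivity)
      _ = Real.exp (s * (θ * k) + (s * ((s : ℝ) - 1) / 2) * (-(lb / 2))) := by
          rw [Real.exp_add]
      _ ≤ Real.exp (-2) := by
          apply Real.exp_le_exp.2
          have h2 : (s : ℝ) * (θ * k) ≤ s * (lb * (s + 1) / 8) :=
            mul_le_mul_of_nonneg_left hθk (by linarith)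
          have h3 : s * (lb * ((s : ℝ) + 1) / 8) + (s * ((s : ℝ) - 1) / 2) * (-(lb / 2))
              = -((lb * s) * (s - 3) / 8) := by ring
          have h4 : 16 * 1 ≤ (lb * s) * ((s : ℝ) - 3) :=
            mul_le_mul hs16 (by linarith) (by norm_num) (by positivity)
          linarith
      _ ≤ _ := hexp2
  have h2 : (N.choose k : ℝ) * (1 - p) ^ (k.choose 2) ≤ 1 / 3 := by
    have e1 : (1 - p) ^ (k.choose 2) ≤ Real.exp ((k * ((k : ℝ) - 1) / 2) * (-p)) := by
      calc (1 - p) ^ (k.choose 2) ≤ (Real.exp (-p)) ^ (k.choose 2) :=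
            pow_le_pow_left₀ (by linarith) (Real.one_sub_le_exp_neg p) _
        _ = _ := by rw [← Real.exp_nat_mul, Nat.cast_choose_two]
    calc (N.choose k : ℝ) * (1 - p) ^ (k.choose 2)
        ≤ Real.exp (k * (θ * k)) * Real.exp ((k * ((k : ℝ) - 1) / 2) * (-p)) :=
          mul_le_mul (hpow k) e1 (by
            apply pow_nonneg; linarith) (by positivity)
      _ = Real.exp (k * (θ * k) + (k * ((k : ℝ) - 1) / 2) * (-p)) := by
          rw [Real.exp_add]
      _ ≤ Real.exp (-2) := by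
          apply Real.exp_le_exp.2
          rw [hpθ]
          have h3 : k * (θ * k) + (k * ((k : ℝ) - 1) / 2) * (-(4 * θ))
              = -((θ * k) * (k - 2)) := by ring
          have hk3R : (3 : ℝ) ≤ k := by exact_mod_cast hk3
          have h4 : 2 * 1 ≤ (θ * k) * ((k : ℝ) - 2) :=
            mul_le_mul hkθ (by linarith) (by norm_num) (by positivity)
          linarith
      _ ≤ _ := hexp2
  obtain ⟨G, hG1, hG2, hG3⟩ := exists_blow (N := N) (b := b) s k p hp0 hp2 (by omega) hbs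
    (by linarith)
  refine ⟨N * b, G, hG1, hG2, ?_, ?_⟩
  · calc ((b : ℝ) / Real.exp 1) ^ (N * b) = (((b : ℝ) / Real.exp 1) ^ b) ^ N := by
          rw [← pow_mul, mul_comm]
      _ ≤ (b.factorial : ℝ) ^ N := pow_le_pow_left₀ (by positivity) (fac_ge b) N
      _ ≤ _ := by exact_mod_cast hG3
  · have h3 : Real.exp (θ * k) ≤ ((N * b : ℕ) : ℝ) := by
      push_cast
      have h4 : (3 : ℝ) ≤ Real.exp (θ * k) := by
        have := Real.add_one_le_exp (θ * k)
        linarith
      nlinarith [(Nat.cast_nonneg N : (0 : ℝ) ≤ N)]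
    have h4 := Real.log_le_log (Real.exp_pos _) h3
    rwa [Real.log_exp] at h4

end Pool.Agent.W967.AR
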