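import Pool.Agent.W967.AR.Num

/-!
# Asymptotic form
-/

set_option autoImplicit false

namespace Pool.Agent.W967.AR

open Filter

lemma choose_le_exp {s k b : ℕ} (hb : 1 ≤ b) :
    ((s + k).choose s : ℝ) ≤ Real.exp (((s : ℝ) + k) / b) * (b : ℝ) ^ s := by
  have hbR : (0 : ℝ) < b := by exact_mod_cast hb
  have h1 : ((s + k).choose s : ℝ) * ((b : ℝ)⁻¹) ^ s ≤ ((b : ℝ)⁻¹ + 1) ^ (s + k) := by
    rw [add_pow]
    have h2 := Finset.single_le_sum (s := Finset.range (s + k + 1))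
      (f := fun m => ((b : ℝ)⁻¹) ^ m * 1 ^ (s + k - m) * ((s + k).choose m : ℝ))
      (fun i _ => by positivity) (Finset.mem_range.2 (show s < s + k + 1 by omega))
    refine le_trans (le_of_eq ?_) h2
    simp only [one_pow]
    ring
  have h2 : ((b : ℝ)⁻¹ + 1) ^ (s + k) ≤ Real.exp (((s : ℝ) + k) / b) := by
    calc ((b : ℝ)⁻¹ + 1) ^ (s + k) ≤ (Real.exp ((b : ℝ)⁻¹)) ^ (s + k) :=
          pow_le_pow_left₀ (by positivity) (Real.add_one_le_exp _) _
      _ = Real.exp (((s : ℝ) + k) / b) := by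
          rw [← Real.exp_nat_mul]; push_cast; rw [div_eq_mul_inv]
  have h3 : ((s + k).choose s : ℝ) = ((s + k).choose s : ℝ) * ((b : ℝ)⁻¹) ^ s * (b : ℝ) ^ s := by
    rw [mul_assoc, ← mul_pow, inv_mul_cancel₀ hbR.ne', one_pow, mul_one]
  rw [h3]
  exact mul_le_mul_of_nonneg_right (h1.trans h2) (by positivity)

lemma log_bound {n k b : ℕ} (G : SimpleGraph (Fin n)) (hN : NoHom G k) (hb : 1 ≤ b)
    (hn : 1 ≤ n) (hcard : (8 * b) ^ n ≤ Nat.card (G ≃g G)) :
    Real.log n ≤ (1 + 1 / (b : ℝ) + Real.log b) / b * k +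
      (6 * Real.log k + (Real.log (6144 * b) + 1 / b + Real.log b)) := by
  have hk : 1 ≤ k := by
    have := hN.1 ∅ (by simp)
    omega
  have hbR : (1 : ℝ) ≤ b := by exact_mod_cast hb
  have hkR : (1 : ℝ) ≤ k := by exact_mod_cast hk
  have hnR : (1 : ℝ) ≤ n := by exact_mod_cast hn
  set s := k / b + 1 with hs
  have hsb : k ≤ s * b := by
    have := Nat.lt_mul_div_succ k (show 0 < b by omega)
    rw [hs, mul_comm]
    exact this.le
  have hsR : (s : ℝ) ≤ k / b + 1 := by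
    rw [hs]; push_cast
    have := Nat.cast_div_le (m := k) (n := b) (α := ℝ)
    linarith
  have h1 := explicit_bound G hN hb hsb hcard
  have h2 : (n : ℝ) ≤ 6144 * b * k ^ 6 * (s + k).choose s := by exact_mod_cast h1
  have h3 : (n : ℝ) ≤ 6144 * b * k ^ 6 * (Real.exp (((s : ℝ) + k) / b) * (b : ℝ) ^ s) :=
    h2.trans (mul_le_mul_of_nonneg_left (choose_le_exp hb) (by positivity))
  have h4 : Real.log n ≤ Real.log (6144 * b) + 6 * Real.log k + (((s : ℝ) + k) / b +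
      s * Real.log b) := by
    have := Real.log_le_log (by positivity) h3
    rw [Real.log_mul (show (6144 * (b : ℝ) * k ^ 6) ≠ 0 by positivity) (by positivity),
      Real.log_mul (show (6144 * (b : ℝ)) ≠ 0 by positivity)
        (show ((k : ℝ) ^ 6) ≠ 0 by positivity),
      Real.log_mul (Real.exp_ne_zero _) (by positivity), Real.log_pow, Real.log_pow,
      Real.log_exp] at this
    push_cast at this
    exact this
  have hlb : 0 ≤ Real.log b := Real.log_nonneg hbR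
  have h5 : ((s : ℝ) + k) / b ≤ (1 / b + 1) / b * k + 1 / b := by
    rw [div_le_iff₀ (by positivity)]
    have : ((1 / (b : ℝ) + 1) / b * k + 1 / b) * b = (k / b + 1) + k := by
      field_simp; ring
    rw [this]; linarith
  have h6 : s * Real.log b ≤ Real.log b / b * k + Real.log b := by
    calc s * Real.log b ≤ (k / b + 1) * Real.log b := mul_le_mul_of_nonneg_right hsR hlb
      _ = _ := by ring
  have h7 : (1 + 1 / (b : ℝ) + Real.log b) / b * k = (1 / b + 1) / b * k + Real.log b / b * k := by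
    ring
  rw [h7]
  linarith

theorem growth (b : ℕ) (hb : 1 ≤ b) (ε : ℝ) (hε : 0 < ε) : ∃ k₀ : ℕ, ∀ k ≥ k₀, ∀ (n : ℕ)
    (G : SimpleGraph (Fin n)), G.CliqueFree k → Gᶜ.CliqueFree k →
    (8 * b) ^ n ≤ Nat.card (G ≃g G) →
    Real.log n ≤ ((1 + 1 / (b : ℝ) + Real.log b) / b + ε) * k := by
  have h1 : ∀ᶠ x : ℝ in atTop, ‖Real.log x‖ ≤ ε / 12 * ‖id x‖ :=
    Real.isLittleO_log_id_atTop.def (by positivity)
  have h2 : ∀ᶠ k : ℕ in atTop, Real.log k ≤ ε / 12 * k := by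
    filter_upwards [tendsto_natCast_atTop_atTop.eventually h1] with k hk
    calc Real.log k ≤ ‖Real.log (k : ℝ)‖ := Real.le_norm_self _
      _ ≤ ε / 12 * ‖id (k : ℝ)‖ := hk
      _ = ε / 12 * k := by simp
  have h3 : ∀ᶠ k : ℕ in atTop,
      Real.log (6144 * b) + 1 / b + Real.log b ≤ ε / 2 * k := by
    have : Tendsto (fun k : ℕ => ε / 2 * (k : ℝ)) atTop atTop :=
      tendsto_natCast_atTop_atTop.const_mul_atTop (by positivity)
    exact this.eventually_ge_atTop _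
  obtain ⟨k₀, hk₀⟩ := eventually_atTop.1 (h2.and h3)
  refine ⟨k₀, fun k hk n G hG hG' hcard => ?_⟩
  obtain ⟨h4, h5⟩ := hk₀ k hk
  have hbR : (1 : ℝ) ≤ b := by exact_mod_cast hb
  have hlb : 0 ≤ Real.log b := Real.log_nonneg hbR
  rcases Nat.eq_zero_or_pos n with rfl | hn
  · simp only [Nat.cast_zero, Real.log_zero]
    positivity
  · have h6 := log_bound G (noHom_of_cliqueFree hG hG') hb hn hcard
    nlinarith

theorem few_automorphisms : ∃ k₀ : ℕ, ∀ k ≥ k₀, ∀ (n : ℕ) (G : SimpleGraph (Fin n)),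
    G.CliqueFree k → Gᶜ.CliqueFree k → (2 : ℝ) ^ ((k : ℝ) / 2) ≤ n →
    Nat.card (G ≃g G) < 80 ^ n := by
  obtain ⟨k₀, hk₀⟩ := growth 10 (by norm_num) (1 / 250) (by norm_num)
  refine ⟨k₀ + 1, fun k hk n G hG hG' hn => ?_⟩
  by_contra hcon
  rw [not_lt] at hcon
  have h1 := hk₀ k (by omega) n G hG hG' (by norm_num; exact hcon)
  have h2 : Real.log ((2 : ℝ) ^ ((k : ℝ) / 2)) ≤ Real.log n :=
    Real.log_le_log (by positivity) hn
  rw [Real.log_rpow (by norm_num)] at h2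
  have h3 : Real.log 10 < 10 / 3 * Real.log 2 := by
    have h4 : Real.log ((10 : ℝ) ^ 3) < Real.log ((2 : ℝ) ^ 10) :=
      Real.log_lt_log (by norm_num) (by norm_num)
    rw [Real.log_pow, Real.log_pow] at h4
    push_cast at h4
    linarith
  have h4 := Real.log_two_gt_d9
  have h5 := Real.log_two_lt_d9
  have hkR : (1 : ℝ) ≤ k := by
    have : 1 ≤ k := by omega
    exact_mod_cast this
  push_cast at h1
  have h6 : (1 + 1 / 10 + Real.log 10) / 10 + 1 / 250 < Real.log 2 / 2 := by linarith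
  nlinarith

theorem threshold (θ : ℝ) (hθ : 0 < θ) : ∃ A k₀ : ℕ, ∀ k ≥ k₀, ∀ (n : ℕ)
    (G : SimpleGraph (Fin n)), G.CliqueFree k → Gᶜ.CliqueFree k → Real.exp (θ * k) ≤ n →
    Nat.card (G ≃g G) < A ^ n := by
  have h1 : ∀ᶠ x : ℝ in atTop, ‖Real.log x‖ ≤ θ / 4 * ‖id x‖ :=
    Real.isLittleO_log_id_atTop.def (by positivity)
  have h2 : ∀ᶠ b : ℕ in atTop, Real.log b ≤ θ / 4 * b := by
    filter_upwards [tendsto_natCast_atTop_atTop.eventually h1] with k hk
    calc Real.log k ≤ ‖Real.log (k : ℝ)‖ := Real.le_norm_self _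
      _ ≤ θ / 4 * ‖id (k : ℝ)‖ := hk
      _ = θ / 4 * k := by simp
  have h3 : ∀ᶠ b : ℕ in atTop, (2 : ℝ) ≤ θ / 4 * b := by
    have : Tendsto (fun k : ℕ => θ / 4 * (k : ℝ)) atTop atTop :=
      tendsto_natCast_atTop_atTop.const_mul_atTop (by positivity)
    exact this.eventually_ge_atTop _
  obtain ⟨b, ⟨h4, h5⟩, hb⟩ := ((h2.and h3).and (eventually_ge_atTop 1)).exists
  obtain ⟨k₀, hk₀⟩ := growth b hb (θ / 4) (by positivity)
  refine ⟨8 * b, k₀ + 1, fun k hk n G hG hG' hn => ?_⟩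
  by_contra hcon
  rw [not_lt] at hcon
  have h6 := hk₀ k (by omega) n G hG hG' hcon
  have h7 := Real.log_le_log (Real.exp_pos _) hn
  rw [Real.log_exp] at h7
  have hbR : (1 : ℝ) ≤ b := by exact_mod_cast hb
  have hkR : (1 : ℝ) ≤ k := by
    have : 1 ≤ k := by omega
    exact_mod_cast this
  have h8 : (1 + 1 / (b : ℝ) + Real.log b) / b ≤ θ / 2 := by
    rw [div_le_iff₀ (by positivity)]
    have : 1 / (b : ℝ) ≤ 1 := by
      rw [div_le_one (by positivity)]; exact hbR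
    linarith
  nlinarith

end Pool.Agent.W967.AR
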