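import Mathlib

/-!
# Nested orbits and the order of a permutation group

`Good H [x₁, x₂, …]` says that the points are distinct and that `x_{i+1}, x_{i+2}, …` all lie in the
orbit of `x_i` under the stabiliser in `H` of `x₁, …, x_{i-1}`. If all such sequences inside an
invariant set `S` have length at most `L`, then `H` has at most `L ^ |S|` times as many elements as
its pointwise stabiliser of `S`.
-/

set_option autoImplicit false

namespace Pool.Agent.W967.AR

open Equiv

variable {V : Type*}

/-- Pointwise stabiliser. -/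
def Fx (S : Set V) : Subgroup (Perm V) where
  carrier := {σ | ∀ x ∈ S, σ x = x}
  mul_mem' := by
    intro a b ha hb x hx
    rw [Perm.mul_apply, hb x hx, ha x hx]
  one_mem' := by intro x _; rfl
  inv_mem' := by
    intro a ha x hx
    rw [Perm.inv_eq_iff_eq]; exact (ha x hx).symm

lemma mem_Fx {S : Set V} {σ : Perm V} : σ ∈ Fx S ↔ ∀ x ∈ S, σ x = x := Iff.rfl

lemma Fx_inf (A B : Set V) : Fx A ⊓ Fx B = Fx (A ∪ B) := by
  ext σ
  simp only [Subgroup.mem_inf, mem_Fx, Set.mem_union]
  constructor
  · rintro ⟨h1, h2⟩ x (hx | hx)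
    · exact h1 x hx
    · exact h2 x hx
  · intro h
    exact ⟨fun x hx => h x (Or.inl hx), fun x hx => h x (Or.inr hx)⟩

/-- Nested orbits. -/
def Good : Subgroup (Perm V) → List V → Prop
  | _, [] => True
  | H, x :: l => x ∉ l ∧ (∀ y ∈ l, ∃ h ∈ H, h x = y) ∧ Good (H ⊓ Fx {x}) l

lemma Good.mono : ∀ (l : List V) (H H' : Subgroup (Perm V)), H' ≤ H → Good H' l → Good H l
  | [], _, _, _, _ => trivial
  | x :: l, H, H', h, hg => by
    refine ⟨hg.1, ?_, Good.mono l _ _ (inf_le_inf_right _ h) hg.2.2⟩
    intro y hy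
    obtain ⟨g, hg1, hg2⟩ := hg.2.1 y hy
    exact ⟨g, h hg1, hg2⟩

lemma card_le_orbit [Finite V] (H : Subgroup (Perm V)) (x : V) (O : Finset V)
    (hO : ∀ h ∈ H, h x ∈ O) :
    Nat.card H ≤ O.card * Nat.card (H ⊓ Fx {x} : Subgroup (Perm V)) := by
  classical
  let rep : V → Perm V := fun y => if hy : ∃ g ∈ H, g x = y then hy.choose else 1
  have hrep : ∀ h : H, rep ((h : Perm V) x) ∈ H ∧ rep ((h : Perm V) x) x = (h : Perm V) x := by
    intro h
    have hy : ∃ g ∈ H, g x = (h : Perm V) x := ⟨h, h.2, rfl⟩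
    simp only [rep, dif_pos hy]
    exact hy.choose_spec
  let φ : H → O × (H ⊓ Fx {x} : Subgroup (Perm V)) := fun h =>
    (⟨(h : Perm V) x, hO h h.2⟩, ⟨(rep ((h : Perm V) x))⁻¹ * h, by
      refine ⟨H.mul_mem (H.inv_mem (hrep h).1) h.2, ?_⟩
      intro z hz
      rw [Set.mem_singleton_iff] at hz
      rw [hz, Perm.mul_apply, Perm.inv_eq_iff_eq, (hrep h).2]⟩)
  have hinj : Function.Injective φ := by
    intro h h' heq
    have h1 : (h : Perm V) x = (h' : Perm V) x := congrArg (fun p => (p.1 : V)) heq
    have h2 : (rep ((h : Perm V) x))⁻¹ * (h : Perm V) = (rep ((h' : Perm V) x))⁻¹ * h' :=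
      congrArg (fun p => ((p.2 : (H ⊓ Fx {x} : Subgroup (Perm V))) : Perm V)) heq
    rw [h1] at h2
    exact Subtype.ext (mul_left_cancel h2)
  calc Nat.card H ≤ Nat.card (O × (H ⊓ Fx {x} : Subgroup (Perm V))) :=
        Nat.card_le_card_of_injective φ hinj
    _ = _ := by rw [Nat.card_prod]; simp

lemma pow_aux (a m : ℕ) : m * a ^ (m - 1) ≤ (a + 1) ^ m := by
  induction m with
  | zero => simp
  | succ m ih =>
    rw [Nat.add_sub_cancel]
    rcases Nat.eq_zero_or_pos m with rfl | hm
    · simp
    · have h1 : a ^ m ≤ (a+1)^m := Nat.pow_le_pow_left (Nat.le_succ a) m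
      have h2 : m * a^m = a * (m * a^(m-1)) := by
        obtain ⟨j, rfl⟩ : ∃ j, m = j + 1 := ⟨m-1, by omega⟩
        rw [Nat.add_sub_cancel, pow_succ]; ring
      calc (m+1) * a^m = m * a^m + a^m := by ring
        _ ≤ a * (a+1)^m + (a+1)^m := by
            rw [h2]; exact Nat.add_le_add (Nat.mul_le_mul_left _ ih) h1
        _ = (a+1)^(m+1) := by rw [pow_succ]; ring

theorem card_le_pow [Finite V] [DecidableEq V] : ∀ (n : ℕ) (H : Subgroup (Perm V)) (S : Finset V)
    (L : ℕ), S.card = n → (∀ h ∈ H, ∀ x ∈ S, h x ∈ S) →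
    (∀ l, Good H l → (∀ x ∈ l, x ∈ S) → l.length ≤ L) →
    Nat.card H ≤ L ^ S.card * Nat.card (H ⊓ Fx (S : Set V) : Subgroup (Perm V)) := by
  intro n
  induction n using Nat.strong_induction_on with
  | _ n ih =>
  intro H S L hn hS hL
  rcases S.eq_empty_or_nonempty with rfl | ⟨x, hx⟩
  · have : (H ⊓ Fx ((∅ : Finset V) : Set V) : Subgroup (Perm V)) = H := by
      ext σ
      simp [Subgroup.mem_inf, mem_Fx]
    rw [this]
    simp
  · classical
    set O := S.filter (fun y => ∃ h ∈ H, h x = y) with hOdef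
    have hxO : x ∈ O := by
      rw [hOdef, Finset.mem_filter]
      exact ⟨hx, 1, H.one_mem, rfl⟩
    have hL1 : 1 ≤ L := by
      have := hL [x] ⟨by simp, by simp, trivial⟩ (by simpa using hx)
      simpa using this
    obtain ⟨L', rfl⟩ : ∃ L', L = L' + 1 := ⟨L - 1, by omega⟩
    have hOmem : ∀ h ∈ H, h x ∈ O := by
      intro h hh
      rw [hOdef, Finset.mem_filter]
      exact ⟨hS h hh x hx, h, hh, rfl⟩
    have hOinv : ∀ h ∈ H, ∀ y ∈ O, h y ∈ O := by
      intro h hh y hy
      rw [hOdef, Finset.mem_filter] at hy ⊢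
      obtain ⟨hyS, g, hg, hgy⟩ := hy
      refine ⟨hS h hh y hyS, h * g, H.mul_mem hh hg, ?_⟩
      rw [Perm.mul_apply, hgy]
    have hOS : O ⊆ S := Finset.filter_subset _ _
    have hcardO : (O.erase x).card + 1 = O.card := Finset.card_erase_add_one hxO
    have hcardS : (S \ O).card + O.card = S.card := Finset.card_sdiff_add_card_eq_card hOS
    have h1 := card_le_orbit H x O hOmem
    have h2 := ih (O.erase x).card (by omega) (H ⊓ Fx {x}) (O.erase x) L' rfl
      (by
        intro h hh y hy
        rw [Finset.mem_erase] at hy ⊢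
        refine ⟨?_, hOinv h hh.1 y hy.2⟩
        intro hc
        apply hy.1
        apply h.injective
        rw [hc, hh.2 x rfl])
      (by
        intro l hl hlO
        have := hL (x :: l) ⟨?_, ?_, hl⟩ ?_
        · simpa using this
        · intro hxl
          exact (Finset.mem_erase.1 (hlO x hxl)).1 rfl
        · intro y hy
          have := (Finset.mem_erase.1 (hlO y hy)).2
          rw [hOdef, Finset.mem_filter] at this
          exact this.2
        · intro y hy
          rcases List.mem_cons.1 hy with rfl | hy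
          · exact hx
          · exact hOS (Finset.mem_erase.1 (hlO y hy)).2)
    have h3 := ih (S \ O).card (by
        have : 0 < O.card := Finset.card_pos.2 ⟨x, hxO⟩
        omega) (H ⊓ Fx (O : Set V)) (S \ O) (L' + 1) rfl
      (by
        intro h hh y hy
        rw [Finset.mem_sdiff] at hy ⊢
        refine ⟨hS h hh.1 y hy.1, ?_⟩
        intro hc
        apply hy.2
        have := hOinv h⁻¹ (H.inv_mem hh.1) _ hc
        simpa using this)
      (by
        intro l hl hlS
        exact hL l (Good.mono l _ _ inf_le_left hl)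
          (fun y hy => (Finset.mem_sdiff.1 (hlS y hy)).1))
    have e1 : ((H ⊓ Fx {x}) ⊓ Fx ((O.erase x : Finset V) : Set V) : Subgroup (Perm V))
        = H ⊓ Fx (O : Set V) := by
      rw [inf_assoc, Fx_inf]
      congr 2
      ext y
      simp only [Set.singleton_union, Set.mem_insert_iff, Finset.mem_coe, Finset.mem_erase]
      constructor
      · rintro (rfl | h)
        · exact hxO
        · exact h.2
      · intro h
        by_cases hyx : y = x
        · exact Or.inl hyx
        · exact Or.inr ⟨hyx, h⟩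
    have e2 : ((H ⊓ Fx (O : Set V)) ⊓ Fx ((S \ O : Finset V) : Set V) : Subgroup (Perm V))
        = H ⊓ Fx (S : Set V) := by
      rw [inf_assoc, Fx_inf]
      congr 2
      ext y
      simp only [Set.mem_union, Finset.mem_coe, Finset.mem_sdiff]
      constructor
      · rintro (h | h)
        · exact hOS h
        · exact h.1
      · intro h
        by_cases hyO : y ∈ O
        · exact Or.inl hyO
        · exact Or.inr ⟨h, hyO⟩
    rw [e1] at h2
    rw [e2] at h3
    have h4 := pow_aux L' O.card
    have hOc : O.card - 1 = (O.erase x).card := by omega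
    rw [hOc] at h4
    calc Nat.card H ≤ O.card * Nat.card (H ⊓ Fx {x} : Subgroup (Perm V)) := h1
      _ ≤ O.card * (L' ^ (O.erase x).card * ((L' + 1) ^ (S \ O).card *
            Nat.card (H ⊓ Fx (S : Set V) : Subgroup (Perm V)))) :=
          Nat.mul_le_mul_left _ (h2.trans (Nat.mul_le_mul_left _ h3))
      _ = (O.card * L' ^ (O.erase x).card) * ((L' + 1) ^ (S \ O).card *
            Nat.card (H ⊓ Fx (S : Set V) : Subgroup (Perm V))) := by ring
      _ ≤ (L' + 1) ^ O.card * ((L' + 1) ^ (S \ O).card *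
            Nat.card (H ⊓ Fx (S : Set V) : Subgroup (Perm V))) := Nat.mul_le_mul_right _ h4
      _ = (L' + 1) ^ S.card * Nat.card (H ⊓ Fx (S : Set V) : Subgroup (Perm V)) := by
          rw [← hcardS, pow_add]; ring

lemma card_le_fix [Fintype V] [DecidableEq V] (R : Finset V) : ∀ (H : Subgroup (Perm V)),
    Nat.card H ≤ Fintype.card V ^ R.card * Nat.card (H ⊓ Fx (R : Set V) : Subgroup (Perm V)) := by
  induction R using Finset.induction_on with
  | empty =>
    intro H
    have : (H ⊓ Fx ((∅ : Finset V) : Set V) : Subgroup (Perm V)) = H := by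
      ext σ
      simp [Subgroup.mem_inf, mem_Fx]
    rw [this]; simp
  | insert x R hx ih =>
    intro H
    have h1 := card_le_orbit H x Finset.univ (fun _ _ => Finset.mem_univ _)
    have h2 := ih (H ⊓ Fx {x})
    have e : ((H ⊓ Fx {x}) ⊓ Fx (R : Set V) : Subgroup (Perm V))
        = H ⊓ Fx ((insert x R : Finset V) : Set V) := by
      rw [inf_assoc, Fx_inf]
      congr 2
      ext y
      simp
    rw [e] at h2
    rw [Finset.card_insert_of_notMem hx, pow_succ]
    calc Nat.card H ≤ _ := h1
      _ ≤ Fintype.card V * _ := Nat.mul_le_mul_left _ h2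
      _ = _ := by ring

end Pool.Agent.W967.AR
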