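import Pool.Agent.W967.AR.Hom

/-!
# Blocks of twins
-/

set_option autoImplicit false

namespace Pool.Agent.W967.AR

open Equiv

lemma exists_hit {V : Type*} [Fintype V] [DecidableEq V] (m D : ℕ) (F : V × V → Finset V)
    (h : Fintype.card V ^ 2 * (Fintype.card V - D) ^ m < Fintype.card V ^ m) :
    ∃ R : Finset V, R.card ≤ m ∧ ∀ p, D ≤ (F p).card → ∃ z ∈ R, z ∈ F p := by
  classical
  by_contra hcon
  push Not at hcon
  have hcov : (Finset.univ : Finset (Fin m → V)) ⊆
      (Finset.univ.filter (fun p : V × V => D ≤ (F p).card)).biUnion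
        (fun p => Fintype.piFinset (fun _ : Fin m => (F p)ᶜ)) := by
    intro f _
    obtain ⟨p, hp, hz⟩ := hcon (Finset.univ.image f) (by
      refine Finset.card_image_le.trans ?_
      simp)
    rw [Finset.mem_biUnion]
    refine ⟨p, by simp [hp], ?_⟩
    rw [Fintype.mem_piFinset]
    intro i
    rw [Finset.mem_compl]
    exact hz (f i) (Finset.mem_image_of_mem _ (Finset.mem_univ _))
  have h1 := Finset.card_le_card hcov
  have h2 := Finset.card_biUnion_le_card_mul
    (Finset.univ.filter (fun p : V × V => D ≤ (F p).card))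
    (fun p => Fintype.piFinset (fun _ : Fin m => (F p)ᶜ)) ((Fintype.card V - D) ^ m) (by
      intro p hp
      rw [Fintype.card_piFinset_const, Finset.card_compl]
      apply Nat.pow_le_pow_left
      have := (Finset.mem_filter.1 hp).2
      omega)
  have h3 : (Finset.univ.filter (fun p : V × V => D ≤ (F p).card)).card
      ≤ Fintype.card V ^ 2 := by
    refine (Finset.card_le_univ _).trans ?_
    rw [Fintype.card_prod, sq]
  have h4 : (Finset.univ : Finset (Fin m → V)).card = Fintype.card V ^ m := by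
    rw [Finset.card_univ, Fintype.card_fun, Fintype.card_fin]
  rw [h4] at h1
  have h5 := Nat.mul_le_mul_right ((Fintype.card V - D) ^ m) h3
  omega

lemma final_block {V ι : Type*} [DecidableEq V] [DecidableEq ι] {G : SimpleGraph V}
    {k s b : ℕ} (hN : NoHom G k) (J : Finset ι) (B : ι → Finset V)
    (hb : ∀ i ∈ J, (B i).card = b) (hb1 : 1 ≤ b)
    (hcl : ∀ i ∈ J, G.IsClique (B i : Set V))
    (hdis : ∀ i ∈ J, ∀ j ∈ J, i ≠ j → Disjoint (B i) (B j))
    (hun : ∀ i ∈ J, ∀ j ∈ J, i ≠ j → ∀ x ∈ B i, ∀ y ∈ B i, ∀ z ∈ B j,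
      (G.Adj x z ↔ G.Adj y z)) (hs : k ≤ s * b) : J.card < (s + k).choose s := by
  classical
  by_contra hcon
  rw [not_lt] at hcon
  let Γ : SimpleGraph ι := SimpleGraph.fromRel (fun i j => ∃ x ∈ B i, ∃ z ∈ B j, G.Adj x z)
  have hΓ : ∀ i j, Γ.Adj i j ↔ i ≠ j ∧ ∃ x ∈ B i, ∃ z ∈ B j, G.Adj x z := by
    intro i j
    rw [SimpleGraph.fromRel_adj]
    constructor
    · rintro ⟨h1, h2 | ⟨x, hx, z, hz, hxz⟩⟩
      · exact ⟨h1, h2⟩
      · exact ⟨h1, z, hz, x, hx, hxz.symm⟩
    · rintro ⟨h1, h2⟩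
      exact ⟨h1, Or.inl h2⟩
  rcases ramsey Γ (s + k) s k rfl J hcon with ⟨Q, hQ, hQc, hQs⟩ | ⟨Q, hQ, hQc, hQs⟩
  · have hU : G.IsClique ((Q.biUnion B : Finset V) : Set V) := by
      intro x hx z hz hxz
      rw [Finset.mem_coe, Finset.mem_biUnion] at hx hz
      obtain ⟨i, hi, hx⟩ := hx
      obtain ⟨j, hj, hz⟩ := hz
      by_cases hij : i = j
      · subst hij
        exact hcl i (hQ hi) hx hz hxz
      · obtain ⟨_, x', hx', z', hz', h⟩ := (hΓ i j).1 (hQc hi hj hij)
        have h1 : G.Adj x z' := (hun i (hQ hi) j (hQ hj) hij x' hx' x hx z' hz').1 h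
        have h2 := (hun j (hQ hj) i (hQ hi) (Ne.symm hij) z' hz' z hz x hx).1 h1.symm
        exact h2.symm
    have hcard : (Q.biUnion B).card = s * b := by
      rw [Finset.card_biUnion (fun i hi j hj hij => hdis i (hQ hi) j (hQ hj) hij),
        Finset.sum_congr rfl (fun i hi => hb i (hQ hi)), Finset.sum_const, hQs, smul_eq_mul]
    have := hN.1 _ hU
    omega
  · have hne : ∀ i ∈ Q, ∃ x, x ∈ B i := by
      intro i hi
      apply Finset.card_pos.1
      rw [hb i (hQ hi)]
      exact hb1
    have hk : 0 < k := by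
      have := hN.1 ∅ (by simp)
      omega
    obtain ⟨i0, hi0⟩ := Finset.card_pos.1 (show 0 < Q.card by omega)
    have : Nonempty V := ⟨(hne i0 hi0).choose⟩
    choose! pick hpick using hne
    have hinj : Set.InjOn pick (Q : Set ι) := by
      intro i hi j hj hij
      by_contra hne'
      exact Finset.disjoint_left.1 (hdis i (hQ hi) j (hQ hj) hne') (hpick i hi)
        (hij ▸ hpick j hj)
    have hW : Gᶜ.IsClique ((Q.image pick : Finset V) : Set V) := by
      intro x hx z hz hxz
      rw [Finset.mem_coe, Finset.mem_image] at hx hz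
      obtain ⟨i, hi, rfl⟩ := hx
      obtain ⟨j, hj, rfl⟩ := hz
      have hij : i ≠ j := fun h => hxz (by rw [h])
      have h1 := hQc hi hj hij
      rw [SimpleGraph.compl_adj] at h1 ⊢
      refine ⟨hxz, fun hadj => h1.2 ?_⟩
      rw [hΓ]
      exact ⟨hij, _, hpick i hi, _, hpick j hj, hadj⟩
    have := hN.2 _ hW
    rw [Finset.card_image_of_injOn hinj, hQs] at this
    exact lt_irrefl _ this

section

variable {V : Type*} [Fintype V] [DecidableEq V]

open Classical in
/-- The vertices that distinguish `x` and `y`. -/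
noncomputable def Dl (G : SimpleGraph V) (x y : V) : Finset V :=
  Finset.univ.filter (fun z => ¬ (G.Adj x z ↔ G.Adj y z))

lemma mem_Dl {G : SimpleGraph V} {x y z : V} :
    z ∈ Dl G x y ↔ ¬ (G.Adj x z ↔ G.Adj y z) := by
  classical
  simp [Dl]

open Classical in
/-- The orbit of `x`. -/
noncomputable def orb (K : Subgroup (Perm V)) (x : V) : Finset V :=
  Finset.univ.filter (fun y => ∃ h ∈ K, h x = y)

lemma mem_orb {K : Subgroup (Perm V)} {x y : V} : y ∈ orb K x ↔ ∃ h ∈ K, h x = y := by
  classical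
  simp [orb]

lemma orb_eq {K : Subgroup (Perm V)} {x y : V} (h : y ∈ orb K x) : orb K y = orb K x := by
  rw [mem_orb] at h
  obtain ⟨g, hg, rfl⟩ := h
  ext z
  rw [mem_orb, mem_orb]
  constructor
  · rintro ⟨g', hg', rfl⟩
    exact ⟨g' * g, K.mul_mem hg' hg, rfl⟩
  · rintro ⟨g', hg', rfl⟩
    refine ⟨g' * g⁻¹, K.mul_mem hg' (K.inv_mem hg), ?_⟩
    simp

lemma self_mem_orb (K : Subgroup (Perm V)) (x : V) : x ∈ orb K x :=
  mem_orb.2 ⟨1, K.one_mem, rfl⟩

lemma card_orb_le {G : SimpleGraph V} {K : Subgroup (Perm V)} {k D : ℕ} (hN : NoHom G k)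
    (near : ∀ h ∈ K, ∀ x, (Dl G x (h x)).card < D) (x : V) : (orb K x).card ≤ 2 * k * D := by
  classical
  have hD : 1 ≤ D := by
    have := near 1 K.one_mem x
    omega
  set P := (orb K x).filter (fun z => G.Adj x z) with hP
  set P' := (orb K x).filter (fun z => ¬ G.Adj x z) with hP'
  have hsplit : P.card + P'.card = (orb K x).card := Finset.card_filter_add_card_filter_not _
  have h1 : P.card < k * D := by
    by_contra hcon
    rw [not_lt] at hcon
    obtain ⟨Q, _, hQ, hc⟩ := greedy_clique (G := G) hD k P (by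
      intro y hy
      obtain ⟨h, hh, rfl⟩ := mem_orb.1 (Finset.mem_filter.1 hy).1
      refine le_trans (Finset.card_le_card ?_) (near h hh x).le
      intro z hz
      rw [Finset.mem_filter, hP, Finset.mem_filter] at hz
      rw [mem_Dl]
      tauto) hcon
    have := hN.1 Q hQ
    omega
  have h2 : P'.card < k * D := by
    by_contra hcon
    rw [not_lt] at hcon
    obtain ⟨Q, _, hQ, hc⟩ := greedy_clique (G := Gᶜ) hD k P' (by
      intro y hy
      obtain ⟨h, hh, rfl⟩ := mem_orb.1 (Finset.mem_filter.1 hy).1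
      have h3 := near h hh x
      refine le_trans (Finset.card_le_card (t := insert (h x) (Dl G x (h x))) ?_)
        ((Finset.card_insert_le _ _).trans h3)
      intro z hz
      rw [Finset.mem_filter, hP', Finset.mem_filter, SimpleGraph.compl_adj] at hz
      rw [Finset.mem_insert, mem_Dl]
      by_cases hzx : z = h x
      · exact Or.inl hzx
      · right
        have : h x ≠ z := fun h' => hzx h'.symm
        tauto) hcon
    have := hN.2 Q hQ
    omega
  nlinarith

open Classical in
/-- The vertices whose orbit contains a long nested sequence. -/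
noncomputable def Gd (K : Subgroup (Perm V)) (b : ℕ) : Finset V :=
  Finset.univ.filter (fun x => ∃ l : List V, Good K l ∧ (∀ y ∈ l, y ∈ orb K x) ∧
    2 * b ≤ l.length)

lemma exists_block {G : SimpleGraph V} {K : Subgroup (Perm V)} {b : ℕ} (hG : Pres G K)
    (hb : 1 ≤ b) {x : V} (hx : x ∈ Gd K b) : ∃ B ⊆ orb K x, B.card = b ∧
      (G.IsClique (B : Set V) ∨ Gᶜ.IsClique (B : Set V)) := by
  classical
  rw [Gd, Finset.mem_filter] at hx
  obtain ⟨_, l, hl, hlO, hlen⟩ := hx
  obtain ⟨A, B, hA, hB, hcA, hcB, hc⟩ := exists_hom_of_good l K hG hl (by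
    intro h; rw [h] at hlen; simp at hlen; omega)
  have : b ≤ A.card ∨ b ≤ B.card := by omega
  rcases this with h | h
  · obtain ⟨T, hT, hTc⟩ := Finset.exists_subset_card_eq h
    exact ⟨T, fun y hy => hlO y (hA y (hT hy)), hTc, Or.inl (hcA.subset (by exact_mod_cast hT))⟩
  · obtain ⟨T, hT, hTc⟩ := Finset.exists_subset_card_eq h
    exact ⟨T, fun y hy => hlO y (hB y (hT hy)), hTc, Or.inr (hcB.subset (by exact_mod_cast hT))⟩

lemma card_Gd_le {G : SimpleGraph V} {K : Subgroup (Perm V)} {k D b s : ℕ} (hN : NoHom G k)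
    (hG : Pres G K) (near : ∀ h ∈ K, ∀ x, (Dl G x (h x)).card < D) (hb : 1 ≤ b)
    (hs : k ≤ s * b) :
    (Gd K b).card ≤ 2 * k * D * (2 * (s + k).choose s * (2 * (b * D) + 1)) := by
  classical
  set I := (Gd K b).image (orb K) with hI
  have hBx : ∀ O ∈ I, ∃ B ⊆ O, B.card = b ∧
      (G.IsClique (B : Set V) ∨ Gᶜ.IsClique (B : Set V)) := by
    intro O hO
    rw [hI, Finset.mem_image] at hO
    obtain ⟨x, hx, rfl⟩ := hO
    exact exists_block hG hb hx
  choose! B hBO hBc hBh using hBx
  have horb : ∀ O ∈ I, ∀ z ∈ O, orb K z = O := by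
    intro O hO z hz
    rw [hI, Finset.mem_image] at hO
    obtain ⟨x, hx, rfl⟩ := hO
    exact orb_eq hz
  have hdisj : ∀ O ∈ I, ∀ O' ∈ I, O ≠ O' → Disjoint (B O) (B O') := by
    intro O hO O' hO' hne
    rw [Finset.disjoint_left]
    intro z hz hz'
    apply hne
    rw [← horb O hO z (hBO O hO hz), horb O' hO' z (hBO O' hO' hz')]
  let conf : Finset V → Finset V → Prop := fun O O' =>
    ∃ z ∈ B O', ∃ x ∈ B O, ∃ y ∈ B O, ¬ (G.Adj x z ↔ G.Adj y z)
  have hout : ∀ O ∈ I, ∀ T ⊆ I, (∀ O' ∈ T, O' ≠ O ∧ conf O O') → T.card ≤ b * D := by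
    intro O hO T hT hTc
    obtain ⟨x0, hx0⟩ := Finset.card_pos.1 (show 0 < (B O).card by rw [hBc O hO]; omega)
    set W := (B O).biUnion (fun y => Dl G x0 y) with hW
    have h1 : T ⊆ W.image (orb K) := by
      intro O' hO'
      obtain ⟨_, z, hz, x, hx, y, hy, hne⟩ := hTc O' hO'
      rw [Finset.mem_image]
      refine ⟨z, ?_, horb O' (hT hO') z (hBO O' (hT hO') hz)⟩
      rw [hW, Finset.mem_biUnion]
      by_cases h : G.Adj x0 z ↔ G.Adj x z
      · refine ⟨y, hy, mem_Dl.2 ?_⟩
        tauto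
      · exact ⟨x, hx, mem_Dl.2 h⟩
    have h2 : W.card ≤ (B O).card * D := by
      apply Finset.card_biUnion_le_card_mul
      intro y hy
      have hy' : y ∈ orb K x0 := by
        rw [horb O hO x0 (hBO O hO hx0)]
        exact hBO O hO hy
      obtain ⟨h, hh, rfl⟩ := mem_orb.1 hy'
      exact (near h hh x0).le
    rw [hBc O hO] at h2
    exact (Finset.card_le_card h1).trans (Finset.card_image_le.trans h2)
  have hIc : I.card < 2 * (s + k).choose s * (2 * (b * D) + 1) := by
    by_contra hcon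
    rw [not_lt] at hcon
    obtain ⟨J, hJI, hJc, hJn⟩ := exists_indep conf (b * D) (2 * (s + k).choose s) I hout hcon
    set J1 := J.filter (fun O => G.IsClique (B O : Set V)) with hJ1
    set J2 := J.filter (fun O => ¬ G.IsClique (B O : Set V)) with hJ2
    have hsplit : J1.card + J2.card = J.card := Finset.card_filter_add_card_filter_not _
    have hun : ∀ O ∈ J, ∀ O' ∈ J, O ≠ O' → ∀ x ∈ B O, ∀ y ∈ B O, ∀ z ∈ B O',
        (G.Adj x z ↔ G.Adj y z) := by
      intro O hO O' hO' hne x hx y hy z hz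
      by_contra hc
      exact hJn O hO O' hO' hne ⟨z, hz, x, hx, y, hy, hc⟩
    have hJ1J : J1 ⊆ J := Finset.filter_subset _ _
    have hJ2J : J2 ⊆ J := Finset.filter_subset _ _
    have h1 : J1.card < (s + k).choose s := by
      refine final_block hN J1 B (fun O hO => hBc O (hJI (hJ1J hO))) hb
        (fun O hO => (Finset.mem_filter.1 hO).2)
        (fun O hO O' hO' h => hdisj O (hJI (hJ1J hO)) O' (hJI (hJ1J hO')) h)
        (fun O hO O' hO' h => hun O (hJ1J hO) O' (hJ1J hO') h) hs
    have h2 : J2.card < (s + k).choose s := by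
      refine final_block hN.compl J2 B (fun O hO => hBc O (hJI (hJ2J hO))) hb
        (fun O hO => ?_)
        (fun O hO O' hO' h => hdisj O (hJI (hJ2J hO)) O' (hJI (hJ2J hO')) h)
        (fun O hO O' hO' h x hx y hy z hz => ?_) hs
      · have h3 := hBh O (hJI (hJ2J hO))
        rcases h3 with h3 | h3
        · exact absurd h3 (Finset.mem_filter.1 hO).2
        · exact h3
      · have h3 := hun O (hJ2J hO) O' (hJ2J hO') h x hx y hy z hz
        have hd := Finset.disjoint_left.1 (hdisj O (hJI (hJ2J hO)) O' (hJI (hJ2J hO')) h)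
        rw [SimpleGraph.compl_adj, SimpleGraph.compl_adj]
        have hxz : x ≠ z := fun h' => hd hx (h' ▸ hz)
        have hyz : y ≠ z := fun h' => hd hy (h' ▸ hz)
        tauto
    omega
  have hfin : (Gd K b).card ≤ 2 * k * D * I.card := by
    rw [hI]
    apply Finset.card_le_mul_card_image
    intro O hO
    rw [Finset.mem_image] at hO
    obtain ⟨x, hx, rfl⟩ := hO
    refine le_trans (Finset.card_le_card ?_) (card_orb_le hN near x)
    intro z hz
    rw [Finset.mem_filter] at hz
    rw [← hz.2]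
    exact self_mem_orb K z
  exact hfin.trans (Nat.mul_le_mul_left _ hIc.le)

lemma length_lt_of_noHom {G : SimpleGraph V} {K : Subgroup (Perm V)} {k : ℕ} (hN : NoHom G k)
    (hG : Pres G K) {l : List V} (hl : Good K l) : l.length ≤ 2 * k - 3 := by
  rcases eq_or_ne l [] with rfl | hne
  · simp
  · obtain ⟨A, B, _, _, hcA, hcB, hc⟩ := exists_hom_of_good l K hG hl hne
    have h1 := hN.1 A hcA
    have h2 := hN.2 B hcB
    omega

lemma card_le_Gd {G : SimpleGraph V} {K : Subgroup (Perm V)} {k b : ℕ} (hN : NoHom G k)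
    (hG : Pres G K) (hb : 1 ≤ b) :
    Nat.card K ≤ (2 * b) ^ Fintype.card V * (2 * k) ^ (Gd K b).card := by
  classical
  set S := Finset.univ \ Gd K b with hS
  have hinv : ∀ h ∈ K, ∀ x, (h x ∈ Gd K b ↔ x ∈ Gd K b) := by
    intro h hh x
    have : orb K (h x) = orb K x := orb_eq (mem_orb.2 ⟨h, hh, rfl⟩)
    rw [Gd, Finset.mem_filter, Finset.mem_filter, this]
    simp
  have h1 := card_le_pow S.card K S (2 * b) rfl (by
      intro h hh x hx
      rw [hS, Finset.mem_sdiff] at hx ⊢
      exact ⟨Finset.mem_univ _, fun hc => hx.2 ((hinv h hh x).1 hc)⟩) (by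
      intro l hl hlS
      cases l with
      | nil => simp
      | cons x l =>
        have hx := hlS x (by simp)
        rw [hS, Finset.mem_sdiff] at hx
        by_contra hcon
        apply hx.2
        rw [Gd, Finset.mem_filter]
        refine ⟨Finset.mem_univ _, x :: l, hl, ?_, by omega⟩
        intro y hy
        rcases List.mem_cons.1 hy with rfl | hy
        · exact self_mem_orb K _
        · exact mem_orb.2 (hl.2.1 y hy))
  have h2 := card_le_pow (Gd K b).card (K ⊓ Fx (S : Set V)) (Gd K b) (2 * k) rfl (by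
      intro h hh x hx
      exact (hinv h hh.1 x).2 hx) (by
      intro l hl _
      have := length_lt_of_noHom hN (hG.mono inf_le_left) hl
      omega)
  have h3 : Nat.card ((K ⊓ Fx (S : Set V)) ⊓ Fx ((Gd K b : Finset V) : Set V) :
      Subgroup (Perm V)) ≤ 1 := by
    rw [Finite.card_le_one_iff_subsingleton]
    constructor
    intro σ τ
    apply Subtype.ext
    ext x
    by_cases hx : x ∈ Gd K b
    · rw [σ.2.2 x hx, τ.2.2 x hx]
    · have hxS : x ∈ S := by rw [hS]; simp [hx]
      rw [σ.2.1.2 x hxS, τ.2.1.2 x hxS]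
  calc Nat.card K ≤ (2 * b) ^ S.card * Nat.card (K ⊓ Fx (S : Set V) : Subgroup (Perm V)) := h1
    _ ≤ (2 * b) ^ Fintype.card V * ((2 * k) ^ (Gd K b).card * 1) := by
        apply Nat.mul_le_mul
        · exact Nat.pow_le_pow_right (by omega) (Finset.card_le_univ _)
        · exact h2.trans (Nat.mul_le_mul_left _ h3)
    _ = _ := by ring

theorem finite_bound {G : SimpleGraph V} {H : Subgroup (Perm V)} {k D b s m : ℕ}
    (hN : NoHom G k) (hG : Pres G H) (hb : 1 ≤ b) (hs : k ≤ s * b)
    (hm : Fintype.card V ^ 2 * (Fintype.card V - D) ^ m < Fintype.card V ^ m) :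
    Nat.card H ≤ Fintype.card V ^ m * ((2 * b) ^ Fintype.card V *
      (2 * k) ^ (2 * k * D * (2 * (s + k).choose s * (2 * (b * D) + 1)))) := by
  classical
  obtain ⟨R, hRm, hR⟩ := exists_hit m D (fun p : V × V => Dl G p.1 p.2) hm
  have h1 := card_le_fix R H
  set K := (H ⊓ Fx (R : Set V) : Subgroup (Perm V)) with hK
  have near : ∀ h ∈ K, ∀ x, (Dl G x (h x)).card < D := by
    intro h hh x
    by_contra hcon
    rw [not_lt] at hcon
    obtain ⟨z, hz, hzD⟩ := hR (x, h x) hcon
    rw [mem_Dl] at hzD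
    apply hzD
    have h2 := hG h hh.1 x z
    rw [hh.2 z hz] at h2
    exact h2.symm
  have hGK : Pres G K := hG.mono inf_le_left
  have h2 := card_le_Gd hN hGK hb
  have h3 := card_Gd_le hN hGK near hb hs
  have hk : 1 ≤ 2 * k := by
    have := hN.1 ∅ (by simp)
    omega
  have hn : Fintype.card V ^ R.card ≤ Fintype.card V ^ m := by
    rcases Nat.eq_zero_or_pos (Fintype.card V) with h0 | h0
    · have hm0 : m = 0 := by
        by_contra hm0
        rw [h0, zero_pow hm0] at hm
        exact absurd hm (Nat.not_lt_zero _)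
      have : R.card = m := by omega
      rw [this]
    · exact Nat.pow_le_pow_right h0 hRm
  calc Nat.card H ≤ Fintype.card V ^ R.card * Nat.card K := h1
    _ ≤ Fintype.card V ^ m * ((2 * b) ^ Fintype.card V * (2 * k) ^ (Gd K b).card) :=
        Nat.mul_le_mul hn h2
    _ ≤ _ := by
        apply Nat.mul_le_mul_left
        apply Nat.mul_le_mul_left
        exact Nat.pow_le_pow_right hk h3

end

end Pool.Agent.W967.AR
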