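import Pool.Agent.W967.AR.Basic

/-!
# Homogeneous sets from nested orbits, and two greedy lemmas
-/

set_option autoImplicit false

namespace Pool.Agent.W967.AR

open Equiv

variable {V : Type*}

/-- `H` preserves the graph `G`. -/
def Pres (G : SimpleGraph V) (H : Subgroup (Perm V)) : Prop :=
  ∀ h ∈ H, ∀ x y, G.Adj (h x) (h y) ↔ G.Adj x y

lemma Pres.mono {G : SimpleGraph V} {H H' : Subgroup (Perm V)} (h : Pres G H) (hle : H' ≤ H) :
    Pres G H' := fun g hg => h g (hle hg)

/-- `G` has no clique and no independent set of size `k`. -/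
def NoHom (G : SimpleGraph V) (k : ℕ) : Prop :=
  (∀ A : Finset V, G.IsClique (A : Set V) → A.card < k) ∧
  (∀ A : Finset V, Gᶜ.IsClique (A : Set V) → A.card < k)

lemma NoHom.compl {G : SimpleGraph V} {k : ℕ} (h : NoHom G k) : NoHom Gᶜ k := by
  refine ⟨h.2, ?_⟩
  rw [compl_compl]
  exact h.1

lemma good_same {G : SimpleGraph V} {H : Subgroup (Perm V)} (hG : Pres G H) {x : V} {l : List V}
    (hl : Good H (x :: l)) : (∀ y ∈ l, G.Adj x y) ∨ (∀ y ∈ l, ¬ G.Adj x y) := by
  cases l with
  | nil => left; simp
  | cons y0 l' =>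
    have hh := hl.2.2
    have key : ∀ y ∈ y0 :: l', (G.Adj x y ↔ G.Adj x y0) := by
      intro y hy
      rcases List.mem_cons.1 hy with rfl | hy
      · rfl
      · obtain ⟨h, hh1, hh2⟩ := hh.2.1 y hy
        have h3 := hG h hh1.1 x y0
        rw [hh1.2 x rfl, hh2] at h3
        exact h3
    by_cases hadj : G.Adj x y0
    · left; intro y hy; exact (key y hy).2 hadj
    · right; intro y hy hc; exact hadj ((key y hy).1 hc)

lemma exists_hom_of_good [DecidableEq V] {G : SimpleGraph V} : ∀ (l : List V)
    (H : Subgroup (Perm V)), Pres G H →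
    Good H l → l ≠ [] → ∃ A B : Finset V, (∀ x ∈ A, x ∈ l) ∧ (∀ x ∈ B, x ∈ l) ∧
      G.IsClique (A : Set V) ∧ Gᶜ.IsClique (B : Set V) ∧ l.length + 1 ≤ A.card + B.card
  | [], _, _, _, h => absurd rfl h
  | x :: l, H, hG, hl, _ => by
    by_cases hne : l = []
    · subst hne
      refine ⟨{x}, {x}, by simp, by simp, by simp, by simp, by simp⟩
    · obtain ⟨A, B, hA, hB, hcA, hcB, hc⟩ := exists_hom_of_good l (H ⊓ Fx {x})
        (hG.mono inf_le_left) hl.2.2 hne
      rcases good_same hG hl with h | h
      · refine ⟨insert x A, B, ?_, ?_, ?_, hcB, ?_⟩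
        · intro y hy
          rcases Finset.mem_insert.1 hy with rfl | hy
          · simp
          · exact List.mem_cons_of_mem _ (hA y hy)
        · intro y hy; exact List.mem_cons_of_mem _ (hB y hy)
        · rw [Finset.coe_insert, SimpleGraph.isClique_insert]
          refine ⟨hcA, fun y hy _ => h y (hA y hy)⟩
        · rw [Finset.card_insert_of_notMem (fun hx => hl.1 (hA x hx)), List.length_cons]
          omega
      · refine ⟨A, insert x B, ?_, ?_, hcA, ?_, ?_⟩
        · intro y hy; exact List.mem_cons_of_mem _ (hA y hy)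
        · intro y hy
          rcases Finset.mem_insert.1 hy with rfl | hy
          · simp
          · exact List.mem_cons_of_mem _ (hB y hy)
        · rw [Finset.coe_insert, SimpleGraph.isClique_insert]
          refine ⟨hcB, fun y hy hne' => ?_⟩
          rw [SimpleGraph.compl_adj]
          exact ⟨hne', h y (hB y hy)⟩
        · rw [Finset.card_insert_of_notMem (fun hx => hl.1 (hB x hx)), List.length_cons]
          omega

/-- A graph in which every vertex has few non-neighbours has a large clique. -/
lemma greedy_clique {G : SimpleGraph V} [DecidableEq V] [DecidableRel G.Adj] {D : ℕ}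
    (hD : 1 ≤ D) : ∀ (k : ℕ) (P : Finset V),
    (∀ y ∈ P, (P.filter (fun z => ¬ G.Adj y z)).card ≤ D) → k * D ≤ P.card →
    ∃ Q ⊆ P, G.IsClique (Q : Set V) ∧ Q.card = k
  | 0, P, _, _ => ⟨∅, by simp, by simp, rfl⟩
  | k + 1, P, hP, hk => by
    have hpos : 0 < P.card := by nlinarith
    obtain ⟨y, hy⟩ := Finset.card_pos.1 hpos
    set P1 := P.filter (fun z => G.Adj y z) with hP1
    have hsplit : P1.card + (P.filter (fun z => ¬ G.Adj y z)).card = P.card :=
      Finset.card_filter_add_card_filter_not _
    have h1 := hP y hy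
    have hk' : k * D ≤ P1.card := by nlinarith
    obtain ⟨Q, hQ, hcl, hcard⟩ := greedy_clique hD k P1 (by
      intro z hz
      refine le_trans (Finset.card_le_card ?_) (hP z (Finset.mem_filter.1 hz).1)
      exact Finset.filter_subset_filter _ (Finset.filter_subset _ _)) hk'
    have hyQ : y ∉ Q := fun h => by
      have := (Finset.mem_filter.1 (hQ h)).2
      exact G.loopless.irrefl y this
    refine ⟨insert y Q, ?_, ?_, ?_⟩
    · intro z hz
      rcases Finset.mem_insert.1 hz with rfl | hz
      · exact hy
      · exact (Finset.mem_filter.1 (hQ hz)).1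
    · rw [Finset.coe_insert, SimpleGraph.isClique_insert]
      exact ⟨hcl, fun z hz _ => (Finset.mem_filter.1 (hQ hz)).2⟩
    · rw [Finset.card_insert_of_notMem hyQ, hcard]

/-- Erdős and Szekeres. -/
lemma ramsey {α : Type*} [DecidableEq α] (Γ : SimpleGraph α) : ∀ (m s t : ℕ), s + t = m →
    ∀ (P : Finset α), (s + t).choose s ≤ P.card →
    (∃ Q ⊆ P, Γ.IsClique (Q : Set α) ∧ Q.card = s) ∨
    (∃ Q ⊆ P, Γᶜ.IsClique (Q : Set α) ∧ Q.card = t) := by
  classical
  intro m
  induction m using Nat.strong_induction_on with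
  | _ m ih =>
  intro s t hst P hP
  rcases s with _ | s
  · left; exact ⟨∅, by simp, by simp, rfl⟩
  rcases t with _ | t
  · right; exact ⟨∅, by simp, by simp, rfl⟩
  have hpos : 0 < P.card := lt_of_lt_of_le (Nat.choose_pos (by omega)) hP
  obtain ⟨v, hv⟩ := Finset.card_pos.1 hpos
  set N := (P.erase v).filter (fun z => Γ.Adj v z) with hN
  set M := (P.erase v).filter (fun z => ¬ Γ.Adj v z) with hM
  have hsplit : N.card + M.card = (P.erase v).card := Finset.card_filter_add_card_filter_not _
  have herase : (P.erase v).card + 1 = P.card := Finset.card_erase_add_one hv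
  have hch : (s + 1 + (t + 1)).choose (s + 1)
      = (s + (t + 1)).choose s + (s + 1 + t).choose (s + 1) := by
    have e1 : s + 1 + (t + 1) = (s + t + 1) + 1 := by ring
    have e2 : s + (t + 1) = s + t + 1 := by ring
    have e3 : s + 1 + t = s + t + 1 := by ring
    rw [e1, e2, e3, Nat.choose_succ_succ]
  have hor : (s + (t + 1)).choose s ≤ N.card ∨ (s + 1 + t).choose (s + 1) ≤ M.card := by
    by_contra hcon
    push Not at hcon
    omega
  have hNP : N ⊆ P := (Finset.filter_subset _ _).trans (Finset.erase_subset _ _)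
  have hMP : M ⊆ P := (Finset.filter_subset _ _).trans (Finset.erase_subset _ _)
  rcases hor with h | h
  · rcases ih (s + (t + 1)) (by omega) s (t + 1) rfl N h with ⟨Q, hQ, hcl, hc⟩ | ⟨Q, hQ, hcl, hc⟩
    · left
      have hvQ : v ∉ Q := fun h' => by
        have := (Finset.mem_filter.1 (hQ h')).2
        exact Γ.loopless.irrefl v this
      refine ⟨insert v Q, ?_, ?_, ?_⟩
      · intro z hz
        rcases Finset.mem_insert.1 hz with rfl | hz
        · exact hv
        · exact hNP (hQ hz)
      · rw [Finset.coe_insert, SimpleGraph.isClique_insert]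
        exact ⟨hcl, fun z hz _ => (Finset.mem_filter.1 (hQ hz)).2⟩
      · rw [Finset.card_insert_of_notMem hvQ, hc]
    · right
      exact ⟨Q, hQ.trans hNP, hcl, hc⟩
  · rcases ih (s + 1 + t) (by omega) (s + 1) t rfl M h with ⟨Q, hQ, hcl, hc⟩ | ⟨Q, hQ, hcl, hc⟩
    · left
      exact ⟨Q, hQ.trans hMP, hcl, hc⟩
    · right
      have hvQ : v ∉ Q := fun h' => by
        have := (Finset.mem_filter.1 (hQ h')).1
        exact (Finset.mem_erase.1 this).1 rfl
      refine ⟨insert v Q, ?_, ?_, ?_⟩
      · intro z hz
        rcases Finset.mem_insert.1 hz with rfl | hz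
        · exact hv
        · exact hMP (hQ hz)
      · rw [Finset.coe_insert, SimpleGraph.isClique_insert]
        refine ⟨hcl, fun z hz hne => ?_⟩
        rw [SimpleGraph.compl_adj]
        exact ⟨hne, (Finset.mem_filter.1 (hQ hz)).2⟩
      · rw [Finset.card_insert_of_notMem hvQ, hc]

/-- A relation with few out-neighbours has a large set without relations. -/
lemma exists_indep {α : Type*} [DecidableEq α] (conf : α → α → Prop) (d : ℕ) :
    ∀ (r : ℕ) (I : Finset α),
    (∀ i ∈ I, ∀ T ⊆ I, (∀ j ∈ T, j ≠ i ∧ conf i j) → T.card ≤ d) →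
    r * (2 * d + 1) ≤ I.card →
    ∃ J ⊆ I, J.card = r ∧ ∀ i ∈ J, ∀ j ∈ J, i ≠ j → ¬ conf i j := by
  classical
  intro r
  induction r with
  | zero => intro I _ _; exact ⟨∅, by simp, rfl, by simp⟩
  | succ r ih =>
    intro I hI hr
    have hpos : 0 < I.card := by nlinarith
    set out : α → Finset α := fun i => I.filter (fun j => j ≠ i ∧ conf i j) with hout
    set inn : α → Finset α := fun j => I.filter (fun i => j ≠ i ∧ conf i j) with hinn
    have hsum : ∑ j ∈ I, (inn j).card = ∑ i ∈ I, (out i).card := by
      have := Finset.sum_card_bipartiteAbove_eq_sum_card_bipartiteBelow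
        (s := I) (t := I) (fun i j => j ≠ i ∧ conf i j)
      simp only [Finset.bipartiteAbove, Finset.bipartiteBelow] at this
      rw [hout, hinn]
      exact this.symm
    have hle : ∑ i ∈ I, (out i).card ≤ ∑ _i ∈ I, d := by
      apply Finset.sum_le_sum
      intro i hi
      apply hI i hi (out i) (Finset.filter_subset _ _)
      intro j hj
      exact (Finset.mem_filter.1 hj).2
    obtain ⟨v, hv, hvd⟩ := Finset.exists_le_of_sum_le (Finset.card_pos.1 hpos)
      (hsum.le.trans hle)
    set I' := I \ (insert v (out v ∪ inn v)) with hI'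
    have hcard : I.card ≤ I'.card + (2 * d + 1) := by
      have h1 : (insert v (out v ∪ inn v)).card ≤ 2 * d + 1 := by
        refine (Finset.card_insert_le _ _).trans ?_
        have := Finset.card_union_le (out v) (inn v)
        have h2 := hI v hv (out v) (Finset.filter_subset _ _)
          (fun j hj => (Finset.mem_filter.1 hj).2)
        omega
      have h2 : I.card ≤ I'.card + (insert v (out v ∪ inn v)).card :=
        Finset.card_le_card_sdiff_add_card
      omega
    obtain ⟨J, hJ, hJc, hJi⟩ := ih I' (by
        intro i hi T hT h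
        exact hI i (Finset.mem_sdiff.1 hi).1 T (hT.trans Finset.sdiff_subset) h) (by nlinarith)
    have hvJ : v ∉ J := fun h => by
      have := (Finset.mem_sdiff.1 (hJ h)).2
      exact this (Finset.mem_insert_self _ _)
    have hnot : ∀ i ∈ J, i ∈ I ∧ i ∉ out v ∧ i ∉ inn v := by
      intro i hi
      have := Finset.mem_sdiff.1 (hJ hi)
      refine ⟨this.1, fun h => this.2 ?_, fun h => this.2 ?_⟩
      · exact Finset.mem_insert_of_mem (Finset.mem_union_left _ h)
      · exact Finset.mem_insert_of_mem (Finset.mem_union_right _ h)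
    refine ⟨insert v J, ?_, ?_, ?_⟩
    · intro i hi
      rcases Finset.mem_insert.1 hi with rfl | hi
      · exact hv
      · exact (hnot i hi).1
    · rw [Finset.card_insert_of_notMem hvJ, hJc]
    · intro i hi j hj hij
      rcases Finset.mem_insert.1 hi with hiv | hi'
      · rcases Finset.mem_insert.1 hj with hjv | hj'
        · exact absurd (hiv.trans hjv.symm) hij
        · intro hc
          apply (hnot j hj').2.1
          rw [hout, Finset.mem_filter]
          rw [hiv] at hc hij
          exact ⟨(hnot j hj').1, Ne.symm hij, hc⟩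
      · rcases Finset.mem_insert.1 hj with hjv | hj'
        · intro hc
          apply (hnot i hi').2.2
          rw [hinn, Finset.mem_filter]
          rw [hjv] at hc hij
          exact ⟨(hnot i hi').1, Ne.symm hij, hc⟩
        · exact hJi i hi' j hj' hij

end Pool.Agent.W967.AR
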