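import Mathlib

/-!
# Blow-ups of asymmetric Ramsey graphs
-/

set_option autoImplicit false

namespace Pool.Agent.W967.AR

open Finset

section base

variable {N : ℕ}

/-- The pairs inside `S`. -/
def Ed (S : Finset (Fin N)) : Finset (Sym2 (Fin N)) := S.offDiag.image (fun p => s(p.1, p.2))

lemma card_Ed (S : Finset (Fin N)) : (Ed S).card = S.card.choose 2 := by
  have := Sym2.card_image_offDiag S
  rw [← this]
  rfl

/-- The functions with constant value `β` on the pairs inside `S`. -/
def PS (S : Finset (Fin N)) (β : Bool) : Finset (Sym2 (Fin N) → Bool) :=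
  Fintype.piFinset (fun e => if e ∈ Ed S then {β} else univ)

lemma mem_PS {S : Finset (Fin N)} {β : Bool} {f : Sym2 (Fin N) → Bool} :
    f ∈ PS S β ↔ ∀ e ∈ Ed S, f e = β := by
  rw [PS, Fintype.mem_piFinset]
  constructor
  · intro h e he
    have := h e
    rw [if_pos he, mem_singleton] at this
    exact this
  · intro h e
    by_cases he : e ∈ Ed S
    · rw [if_pos he, mem_singleton]; exact h e he
    · rw [if_neg he]; exact mem_univ _

/-- The weight of a value. -/
noncomputable def wt (p : ℝ) (β : Bool) : ℝ := if β then p else 1 - p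

lemma sum_wt (p : ℝ) : ∑ β : Bool, wt p β = 1 := by
  simp [wt]

lemma sum_PS (p : ℝ) (S : Finset (Fin N)) (β : Bool) :
    ∑ f ∈ PS S β, ∏ e, wt p (f e) = wt p β ^ (S.card.choose 2) := by
  rw [PS, ← Finset.prod_univ_sum (fun e => if e ∈ Ed S then {β} else univ)
    (fun (_ : Sym2 (Fin N)) j => wt p j), ← card_Ed S]
  have : ∀ e : Sym2 (Fin N), (∑ j ∈ (if e ∈ Ed S then ({β} : Finset Bool) else univ), wt p j)
      = if e ∈ Ed S then wt p β else 1 := by
    intro e
    by_cases he : e ∈ Ed S
    · rw [if_pos he, if_pos he, sum_singleton]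
    · rw [if_neg he, if_neg he, sum_wt]
  rw [Finset.prod_congr rfl (fun e _ => this e), Finset.prod_ite_mem, Finset.univ_inter,
    Finset.prod_const]

lemma exists_base (s k : ℕ) (p : ℝ) (hp0 : 0 ≤ p) (hp1 : p ≤ 1)
    (h : (N.choose s : ℝ) * p ^ (s.choose 2) + (N.choose k : ℝ) * (1 - p) ^ (k.choose 2) < 1) :
    ∃ Γ : SimpleGraph (Fin N), Γ.CliqueFree s ∧ Γᶜ.CliqueFree k := by
  classical
  by_contra hcon
  push Not at hcon
  have hW : ∀ f : Sym2 (Fin N) → Bool, 0 ≤ ∏ e, wt p (f e) := by
    intro f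
    apply Finset.prod_nonneg
    intro e _
    unfold wt
    split_ifs <;> linarith
  have key : ∀ f : Sym2 (Fin N) → Bool,
      (1 : ℝ) ≤ ∑ S ∈ powersetCard s (univ : Finset (Fin N)), (if f ∈ PS S true then 1 else 0) +
        ∑ S ∈ powersetCard k (univ : Finset (Fin N)), (if f ∈ PS S false then 1 else 0) := by
    intro f
    let Γ : SimpleGraph (Fin N) :=
      { Adj := fun i j => i ≠ j ∧ f s(i, j) = true
        symm := ⟨fun i j hij => ⟨hij.1.symm, by rw [Sym2.eq_swap]; exact hij.2⟩⟩
        loopless := ⟨fun i hi => hi.1 rfl⟩ }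
    have hnn1 : (0 : ℝ) ≤ ∑ S ∈ powersetCard s (univ : Finset (Fin N)),
        (if f ∈ PS S true then (1 : ℝ) else 0) := Finset.sum_nonneg (fun _ _ => by split_ifs <;> norm_num)
    have hnn2 : (0 : ℝ) ≤ ∑ S ∈ powersetCard k (univ : Finset (Fin N)),
        (if f ∈ PS S false then (1 : ℝ) else 0) := Finset.sum_nonneg (fun _ _ => by split_ifs <;> norm_num)
    by_cases hc : Γ.CliqueFree s
    · have hc' := hcon Γ hc
      unfold SimpleGraph.CliqueFree at hc'
      push Not at hc'
      obtain ⟨T, hT⟩ := hc'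
      have hmem : f ∈ PS T false := by
        rw [mem_PS]
        intro e he
        rw [Ed, mem_image] at he
        obtain ⟨⟨i, j⟩, hij, rfl⟩ := he
        rw [mem_offDiag] at hij
        have := hT.1 hij.1 hij.2.1 hij.2.2
        rw [SimpleGraph.compl_adj] at this
        by_contra hne
        exact this.2 ⟨hij.2.2, by simpa using hne⟩
      have := Finset.single_le_sum (s := powersetCard k (univ : Finset (Fin N)))
        (f := fun S => if f ∈ PS S false then (1 : ℝ) else 0)
        (fun _ _ => by split_ifs <;> norm_num) (mem_powersetCard.2 ⟨subset_univ T, hT.2⟩)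
      simp only [if_pos hmem] at this
      linarith
    · unfold SimpleGraph.CliqueFree at hc
      push Not at hc
      obtain ⟨T, hT⟩ := hc
      have hmem : f ∈ PS T true := by
        rw [mem_PS]
        intro e he
        rw [Ed, mem_image] at he
        obtain ⟨⟨i, j⟩, hij, rfl⟩ := he
        rw [mem_offDiag] at hij
        exact (hT.1 hij.1 hij.2.1 hij.2.2).2
      have := Finset.single_le_sum (s := powersetCard s (univ : Finset (Fin N)))
        (f := fun S => if f ∈ PS S true then (1 : ℝ) else 0)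
        (fun _ _ => by split_ifs <;> norm_num) (mem_powersetCard.2 ⟨subset_univ T, hT.2⟩)
      simp only [if_pos hmem] at this
      linarith
  have htot : ∑ f : Sym2 (Fin N) → Bool, ∏ e, wt p (f e) = 1 := by
    have := sum_PS p (∅ : Finset (Fin N)) true
    have h2 : PS (∅ : Finset (Fin N)) true = univ := by
      ext f
      rw [mem_PS]
      simp [Ed]
    rw [h2] at this
    rw [this]; simp
  have hsw : ∀ (r : ℕ) (β : Bool), ∑ f : Sym2 (Fin N) → Bool, (∏ e, wt p (f e)) *
      ∑ S ∈ powersetCard r (univ : Finset (Fin N)), (if f ∈ PS S β then (1 : ℝ) else 0)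
      = (N.choose r : ℝ) * wt p β ^ (r.choose 2) := by
    intro r β
    simp only [Finset.mul_sum]
    rw [Finset.sum_comm]
    have : ∀ S ∈ powersetCard r (univ : Finset (Fin N)),
        ∑ f : Sym2 (Fin N) → Bool, (∏ e, wt p (f e)) * (if f ∈ PS S β then (1 : ℝ) else 0)
        = wt p β ^ (r.choose 2) := by
      intro S hS
      rw [← (mem_powersetCard.1 hS).2, ← sum_PS p S β]
      simp only [mul_ite, mul_one, mul_zero]
      rw [Finset.sum_ite_mem, Finset.univ_inter]
    rw [Finset.sum_congr rfl this, Finset.sum_const, Finset.card_powersetCard, Finset.card_univ,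
      Fintype.card_fin, nsmul_eq_mul]
  have hfin : (1 : ℝ) ≤ (N.choose s : ℝ) * p ^ (s.choose 2) +
      (N.choose k : ℝ) * (1 - p) ^ (k.choose 2) := by
    have e1 := hsw s true
    have e2 := hsw k false
    simp only [wt, if_true, Bool.false_eq_true, if_false] at e1 e2
    calc (1 : ℝ) = ∑ f : Sym2 (Fin N) → Bool, ∏ e, wt p (f e) := htot.symm
      _ ≤ ∑ f : Sym2 (Fin N) → Bool, (∏ e, wt p (f e)) *
          (∑ S ∈ powersetCard s (univ : Finset (Fin N)), (if f ∈ PS S true then 1 else 0) +
          ∑ S ∈ powersetCard k (univ : Finset (Fin N)), (if f ∈ PS S false then 1 else 0)) := by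
          apply Finset.sum_le_sum
          intro f _
          exact le_mul_of_one_le_right (hW f) (key f)
      _ = _ := by
          rw [← e1, ← e2, ← Finset.sum_add_distrib]
          apply Finset.sum_congr rfl
          intro f _
          rw [mul_add]
          rfl
  linarith

end base

section blow

variable {N b : ℕ}

/-- Replace every vertex by a clique of size `b`. -/
def blow (Γ : SimpleGraph (Fin N)) (b : ℕ) : SimpleGraph (Fin N × Fin b) where
  Adj u v := Γ.Adj u.1 v.1 ∨ (u.1 = v.1 ∧ u.2 ≠ v.2)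
  symm := ⟨fun _ _ h => h.elim (fun h => Or.inl h.symm) (fun h => Or.inr ⟨h.1.symm, h.2.symm⟩)⟩
  loopless := ⟨fun _ h => h.elim (fun h => Γ.loopless.irrefl _ h) (fun h => h.2 rfl)⟩

lemma blow_cliqueFree {Γ : SimpleGraph (Fin N)} {s k : ℕ} (hΓ : Γ.CliqueFree s)
    (hs : b * s ≤ k) (hb : 0 < b) : (blow Γ b).CliqueFree k := by
  classical
  intro T hT
  have h1 : T.card ≤ b * (T.image Prod.fst).card := by
    apply Finset.card_le_mul_card_image
    intro i _
    calc (T.filter (fun u => u.1 = i)).card ≤ (univ : Finset (Fin b)).card := by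
          apply Finset.card_le_card_of_injOn Prod.snd (fun _ _ => mem_univ _)
          intro u hu v hv huv
          have hu' := (Finset.mem_filter.1 hu).2
          have hv' := (Finset.mem_filter.1 hv).2
          exact Prod.ext (hu'.trans hv'.symm) huv
      _ = b := by simp
  rw [hT.2] at h1
  have h2 : s ≤ (T.image Prod.fst).card := Nat.le_of_mul_le_mul_left (hs.trans h1) hb
  obtain ⟨Q, hQ, hQc⟩ := Finset.exists_subset_card_eq h2
  refine hΓ Q ⟨?_, hQc⟩
  intro i hi j hj hij
  obtain ⟨u, hu, rfl⟩ := Finset.mem_image.1 (hQ hi)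
  obtain ⟨v, hv, rfl⟩ := Finset.mem_image.1 (hQ hj)
  have huv : u ≠ v := fun h => hij (by rw [h])
  rcases hT.1 hu hv huv with h | h
  · exact h
  · exact absurd h.1 hij

lemma blow_compl_cliqueFree {Γ : SimpleGraph (Fin N)} {k : ℕ} (hΓ : Γᶜ.CliqueFree k) :
    (blow Γ b)ᶜ.CliqueFree k := by
  classical
  intro T hT
  have hinj : Set.InjOn Prod.fst (T : Set (Fin N × Fin b)) := by
    intro u hu v hv huv
    by_contra hne
    have := hT.1 hu hv hne
    rw [SimpleGraph.compl_adj] at this
    apply this.2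
    right
    exact ⟨huv, fun h => hne (Prod.ext huv h)⟩
  refine hΓ (T.image Prod.fst) ⟨?_, ?_⟩
  · intro i hi j hj hij
    obtain ⟨u, hu, rfl⟩ := Finset.mem_image.1 hi
    obtain ⟨v, hv, rfl⟩ := Finset.mem_image.1 hj
    have huv : u ≠ v := fun h => hij (by rw [h])
    have := hT.1 hu hv huv
    rw [SimpleGraph.compl_adj] at this ⊢
    exact ⟨hij, fun h => this.2 (Or.inl h)⟩
  · rw [Finset.card_image_of_injOn hinj]
    exact hT.2

/-- Permute each clique. -/
def blowAut (Γ : SimpleGraph (Fin N)) (π : Fin N → Equiv.Perm (Fin b)) :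
    blow Γ b ≃g blow Γ b where
  toFun u := (u.1, π u.1 u.2)
  invFun u := (u.1, (π u.1).symm u.2)
  left_inv u := by simp
  right_inv u := by simp
  map_rel_iff' := by
    intro u v
    simp only [blow, Equiv.coe_fn_mk]
    constructor
    · rintro (h | ⟨h1, h2⟩)
      · exact Or.inl h
      · right
        refine ⟨h1, fun h => h2 ?_⟩
        rw [h1, h]
    · rintro (h | ⟨h1, h2⟩)
      · exact Or.inl h
      · right
        refine ⟨h1, fun h => h2 ?_⟩
        rw [h1] at h
        exact (π v.1).injective h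

lemma card_blowAut (Γ : SimpleGraph (Fin N)) :
    (b.factorial) ^ N ≤ Nat.card (blow Γ b ≃g blow Γ b) := by
  have h1 : Nat.card (Fin N → Equiv.Perm (Fin b)) = (b.factorial) ^ N := by
    rw [Nat.card_eq_fintype_card, Fintype.card_fun, Fintype.card_perm, Fintype.card_fin,
      Fintype.card_fin]
  rw [← h1]
  have : Finite (blow Γ b ≃g blow Γ b) :=
    Finite.of_injective (fun f => f.toEquiv) RelIso.toEquiv_injective
  refine Nat.card_le_card_of_injective (blowAut Γ) ?_
  intro π π' h
  funext i
  ext x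
  have := congrArg (fun f : blow Γ b ≃g blow Γ b => (f (i, x)).2) h
  exact congrArg Fin.val this

theorem exists_blow (s k : ℕ) (p : ℝ) (hp0 : 0 ≤ p) (hp1 : p ≤ 1) (hb : 0 < b)
    (hs : b * s ≤ k)
    (h : (N.choose s : ℝ) * p ^ (s.choose 2) + (N.choose k : ℝ) * (1 - p) ^ (k.choose 2) < 1) :
    ∃ G : SimpleGraph (Fin (N * b)), G.CliqueFree k ∧ Gᶜ.CliqueFree k ∧
      (b.factorial) ^ N ≤ Nat.card (G ≃g G) := by
  obtain ⟨Γ, h1, h2⟩ := exists_base s k p hp0 hp1 h
  let e : Fin (N * b) ≃ Fin N × Fin b := finProdFinEquiv.symm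
  let G : SimpleGraph (Fin (N * b)) := (blow Γ b).comap e
  have iso : G ≃g blow Γ b := SimpleGraph.Iso.comap e (blow Γ b)
  have iso' : Gᶜ ≃g (blow Γ b)ᶜ :=
    { toEquiv := iso.toEquiv
      map_rel_iff' := by
        intro u v
        rw [SimpleGraph.compl_adj, SimpleGraph.compl_adj]
        have := iso.map_rel_iff (a := u) (b := v)
        constructor
        · rintro ⟨h3, h4⟩
          exact ⟨fun h => h3 (by rw [h]), fun h => h4 (this.2 h)⟩
        · rintro ⟨h3, h4⟩
          exact ⟨fun h => h3 (iso.toEquiv.injective h), fun h => h4 (this.1 h)⟩ }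
  refine ⟨G, ?_, ?_, ?_⟩
  · exact (blow_cliqueFree h1 hs hb).comap ⟨iso.toCopy⟩
  · exact (blow_compl_cliqueFree h2).comap ⟨iso'.toCopy⟩
  · refine (card_blowAut (b := b) Γ).trans ?_
    have : Finite (G ≃g G) := Finite.of_injective (fun f => f.toEquiv) RelIso.toEquiv_injective
    refine Nat.card_le_card_of_injective (fun f => (iso.trans f).trans iso.symm) ?_
    intro f g hfg
    ext u
    · have := congrArg (fun h : G ≃g G => iso (h (iso.symm u))) hfg
      simp only [RelIso.trans_apply, RelIso.apply_symm_apply] at this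
      rw [this]
    · have := congrArg (fun h : G ≃g G => iso (h (iso.symm u))) hfg
      simp only [RelIso.trans_apply, RelIso.apply_symm_apply] at this
      rw [this]

end blow

end Pool.Agent.W967.AR
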