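import Pool.Agent.W967.AR.Core

/-!
# The order of the automorphism group of a Ramsey graph
-/

set_option autoImplicit false

namespace Pool.Agent.W967.AR

open Equiv

/-- The automorphism group as a group of permutations. -/
def autS {V : Type*} (G : SimpleGraph V) : Subgroup (Perm V) where
  carrier := {σ | ∀ x y, G.Adj (σ x) (σ y) ↔ G.Adj x y}
  mul_mem' := by
    intro a b ha hb x y
    rw [Perm.mul_apply, Perm.mul_apply, ha, hb]
  one_mem' := by intro x y; rfl
  inv_mem' := by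
    intro a ha x y
    have := ha (a⁻¹ x) (a⁻¹ y)
    simpa using this.symm

lemma pres_autS {V : Type*} (G : SimpleGraph V) : Pres G (autS G) := fun _ hh x y => hh x y

lemma card_iso_le {V : Type*} [Finite V] (G : SimpleGraph V) :
    Nat.card (G ≃g G) ≤ Nat.card (autS G) := by
  let φ : (G ≃g G) → autS G := fun f => ⟨f.toEquiv, fun x y => f.map_rel_iff⟩
  refine Nat.card_le_card_of_injective φ ?_
  intro f g h
  have h1 : f.toEquiv = g.toEquiv := congrArg Subtype.val h
  exact RelIso.toEquiv_injective h1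

lemma noHom_of_cliqueFree {V : Type*} {G : SimpleGraph V} {k : ℕ} (h1 : G.CliqueFree k)
    (h2 : Gᶜ.CliqueFree k) : NoHom G k := by
  classical
  constructor
  · intro A hA
    by_contra hcon
    rw [not_lt] at hcon
    obtain ⟨T, hT, hTc⟩ := Finset.exists_subset_card_eq hcon
    exact h1 T ⟨hA.subset (by exact_mod_cast hT), hTc⟩
  · intro A hA
    by_contra hcon
    rw [not_lt] at hcon
    obtain ⟨T, hT, hTc⟩ := Finset.exists_subset_card_eq hcon
    exact h2 T ⟨hA.subset (by exact_mod_cast hT), hTc⟩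

lemma card_lt_of_cliqueFree {V : Type*} {G : SimpleGraph V} {k : ℕ} (h1 : G.CliqueFree k)
    {A : Finset V} (hA : G.IsClique (A : Set V)) : A.card < k := by
  classical
  by_contra hcon
  rw [not_lt] at hcon
  obtain ⟨T, hT, hTc⟩ := Finset.exists_subset_card_eq hcon
  exact h1 T ⟨hA.subset (by exact_mod_cast hT), hTc⟩

/-- The basic bound. -/
theorem card_aut_le {n a c : ℕ} (G : SimpleGraph (Fin n)) (h1 : G.CliqueFree a)
    (h2 : Gᶜ.CliqueFree c) : Nat.card (G ≃g G) ≤ (a + c - 3) ^ n := by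
  classical
  have h3 := card_le_pow (Finset.univ : Finset (Fin n)).card (autS G) Finset.univ (a + c - 3) rfl
    (fun _ _ _ _ => Finset.mem_univ _) (by
      intro l hl _
      rcases eq_or_ne l [] with rfl | hne
      · simp
      · obtain ⟨A, B, _, _, hcA, hcB, hc⟩ := exists_hom_of_good l _ (pres_autS G) hl hne
        have h4 := card_lt_of_cliqueFree h1 hcA
        have h5 := card_lt_of_cliqueFree h2 hcB
        omega)
  have h4 : Nat.card ((autS G) ⊓ Fx ((Finset.univ : Finset (Fin n)) : Set (Fin n)) :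
      Subgroup (Perm (Fin n))) ≤ 1 := by
    rw [Finite.card_le_one_iff_subsingleton]
    constructor
    intro σ τ
    apply Subtype.ext
    ext x
    rw [σ.2.2 x (by simp), τ.2.2 x (by simp)]
  rw [Finset.card_univ, Fintype.card_fin] at h3
  calc Nat.card (G ≃g G) ≤ Nat.card (autS G) := card_iso_le G
    _ ≤ (a + c - 3) ^ n * _ := h3
    _ ≤ (a + c - 3) ^ n * 1 := Nat.mul_le_mul_left _ h4
    _ = _ := mul_one _

lemma hit_num {n L m : ℕ} (hn : n < 2 ^ (L + 1)) (hm : n ≤ 2 * (m * (L + 1))) (hm1 : 1 ≤ m)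
    (hn1 : 1 ≤ n) : n ^ 2 * (n - 4 * (L + 1) ^ 2) ^ m < n ^ m := by
  rcases le_total n (4 * (L + 1) ^ 2) with h | h
  · rw [Nat.sub_eq_zero_of_le h, zero_pow (by omega), mul_zero]
    exact pow_pos hn1 m
  · have hnR : (0 : ℝ) < n := by exact_mod_cast hn1
    have hL : (0 : ℝ) < (L : ℝ) + 1 := by positivity
    have e1 : ((n - 4 * (L + 1) ^ 2 : ℕ) : ℝ) = n - 4 * ((L : ℝ) + 1) ^ 2 := by
      rw [Nat.cast_sub h]; push_cast; ring
    have h2 : ((n - 4 * (L + 1) ^ 2 : ℕ) : ℝ) ≤ n * Real.exp (-(4 * ((L : ℝ) + 1) ^ 2 / n)) := by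
      rw [e1]
      have := Real.add_one_le_exp (-(4 * ((L : ℝ) + 1) ^ 2 / n))
      have h3 := mul_le_mul_of_nonneg_left this hnR.le
      calc (n : ℝ) - 4 * ((L : ℝ) + 1) ^ 2 = n * (-(4 * ((L : ℝ) + 1) ^ 2 / n) + 1) := by
            field_simp; ring
        _ ≤ _ := h3
    have h3 : ((n - 4 * (L + 1) ^ 2 : ℕ) : ℝ) ^ m ≤
        (n : ℝ) ^ m * Real.exp (-(2 * ((L : ℝ) + 1))) := by
      calc ((n - 4 * (L + 1) ^ 2 : ℕ) : ℝ) ^ m
          ≤ (n * Real.exp (-(4 * ((L : ℝ) + 1) ^ 2 / n))) ^ m :=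
            pow_le_pow_left₀ (Nat.cast_nonneg _) h2 m
        _ = (n : ℝ) ^ m * Real.exp (m * (-(4 * ((L : ℝ) + 1) ^ 2 / n))) := by
            rw [mul_pow, ← Real.exp_nat_mul]
        _ ≤ (n : ℝ) ^ m * Real.exp (-(2 * ((L : ℝ) + 1))) := by
            apply mul_le_mul_of_nonneg_left _ (by positivity)
            apply Real.exp_le_exp.2
            have h4 : (n : ℝ) ≤ 2 * (m * (L + 1)) := by exact_mod_cast hm
            have h5 : 2 * ((L : ℝ) + 1) ≤ m * (4 * ((L : ℝ) + 1) ^ 2 / n) := by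
              rw [← mul_div_assoc, le_div_iff₀ hnR]
              nlinarith
            linarith
    have h4 : (n : ℝ) ^ 2 < Real.exp (2 * ((L : ℝ) + 1)) := by
      have h5 : (n : ℝ) < 2 ^ (L + 1) := by exact_mod_cast hn
      have h6 : (2 : ℝ) ^ (L + 1) ≤ Real.exp ((L : ℝ) + 1) := by
        have : Real.exp ((L : ℝ) + 1) = Real.exp 1 ^ (L + 1) := by
          rw [← Real.exp_nat_mul]; push_cast; ring_nf
        rw [this]
        exact pow_le_pow_left₀ (by norm_num) (by linarith [Real.exp_one_gt_d9]) _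
      calc (n : ℝ) ^ 2 < (Real.exp ((L : ℝ) + 1)) ^ 2 :=
            pow_lt_pow_left₀ (h5.trans_le h6) hnR.le (by norm_num)
        _ = _ := by rw [← Real.exp_nat_mul]; push_cast; ring_nf
    have h5 : (n : ℝ) ^ 2 * ((n - 4 * (L + 1) ^ 2 : ℕ) : ℝ) ^ m < (n : ℝ) ^ m := by
      have hnm : (0 : ℝ) < (n : ℝ) ^ m := by positivity
      calc (n : ℝ) ^ 2 * ((n - 4 * (L + 1) ^ 2 : ℕ) : ℝ) ^ m
          ≤ (n : ℝ) ^ 2 * ((n : ℝ) ^ m * Real.exp (-(2 * ((L : ℝ) + 1)))) :=
            mul_le_mul_of_nonneg_left h3 (by positivity)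
        _ < Real.exp (2 * ((L : ℝ) + 1)) * ((n : ℝ) ^ m * Real.exp (-(2 * ((L : ℝ) + 1)))) :=
            mul_lt_mul_of_pos_right h4 (by positivity)
        _ = (n : ℝ) ^ m := by
            rw [Real.exp_neg]
            field_simp
    exact_mod_cast h5

theorem explicit_bound {n k b s : ℕ} (G : SimpleGraph (Fin n)) (hN : NoHom G k) (hb : 1 ≤ b)
    (hs : k ≤ s * b) (hcard : (8 * b) ^ n ≤ Nat.card (G ≃g G)) :
    n ≤ 6144 * b * k ^ 6 * (s + k).choose s := by
  classical
  have hk : 1 ≤ k := by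
    have := hN.1 ∅ (by simp)
    omega
  have hC : 1 ≤ (s + k).choose s := Nat.choose_pos (by omega)
  rcases Nat.eq_zero_or_pos n with rfl | hn
  · exact Nat.zero_le _
  set L := Nat.log 2 n with hL
  have hnL : n < 2 ^ (L + 1) := Nat.lt_pow_succ_log_self (by norm_num) n
  -- Ramsey
  have hL2 : L + 1 ≤ 2 * k := by
    have h1 : n < (k + k).choose k := by
      by_contra hcon
      rw [not_lt] at hcon
      rcases ramsey G (k + k) k k rfl Finset.univ (by simpa using hcon) with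
        ⟨Q, _, hQ, hc⟩ | ⟨Q, _, hQ, hc⟩
      · have := hN.1 Q hQ; omega
      · have := hN.2 Q hQ; omega
    have h2 : (k + k).choose k ≤ 2 ^ (k + k) := Nat.choose_le_two_pow _ _
    have h3 : L < k + k := Nat.log_lt_of_lt_pow (by omega) (h1.trans_le h2)
    omega
  have hbk : 1 ≤ b * k ^ 6 * (s + k).choose s :=
    Nat.one_le_iff_ne_zero.2 (by positivity)
  rcases lt_or_ge n (2 * (L + 1)) with hsm | hlg
  · have h1 : n ≤ 4 * k := by omega
    have h2 : k ≤ k ^ 6 := Nat.le_self_pow (by norm_num) k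
    calc n ≤ 4 * k := h1
      _ ≤ 6144 * 1 * k ^ 6 * 1 := by omega
      _ ≤ 6144 * b * k ^ 6 * (s + k).choose s := by gcongr
  · set m := n / (L + 1) with hm
    have hm2 : 2 ≤ m := (Nat.le_div_iff_mul_le (by omega)).2 hlg
    have hmod := Nat.div_add_mod n (L + 1)
    have hmodlt := Nat.mod_lt n (show 0 < L + 1 by omega)
    rw [← hm] at hmod
    have hmul : m * (L + 1) ≤ n := by rw [mul_comm]; omega
    have hm3 : n ≤ 2 * (m * (L + 1)) := by
      have : 1 * (L + 1) ≤ m * (L + 1) := Nat.mul_le_mul_right _ (by omega)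
      rw [mul_comm] at hmod
      omega
    have hit := hit_num hnL hm3 (by omega) hn
    have h1 := finite_bound (G := G) (H := autS G) (D := 4 * (L + 1) ^ 2) (m := m) hN (pres_autS G)
      hb hs (by rw [Fintype.card_fin]; exact hit)
    rw [Fintype.card_fin] at h1
    set M := 2 * k * (4 * (L + 1) ^ 2) *
      (2 * (s + k).choose s * (2 * (b * (4 * (L + 1) ^ 2)) + 1)) with hM
    have h2 : n ^ m ≤ 2 ^ n := by
      calc n ^ m ≤ (2 ^ (L + 1)) ^ m := Nat.pow_le_pow_left hnL.le m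
        _ = 2 ^ ((L + 1) * m) := (pow_mul _ _ _).symm
        _ ≤ 2 ^ n := Nat.pow_le_pow_right (by norm_num) (by rw [mul_comm]; exact hmul)
    have h3 : (8 * b) ^ n ≤ 2 ^ n * ((2 * b) ^ n * (2 * k) ^ M) :=
      hcard.trans ((card_iso_le G).trans (h1.trans (Nat.mul_le_mul_right _ h2)))
    have h4 : 2 ^ n ≤ (2 * k) ^ M := by
      have e : (8 * b) ^ n = 2 ^ n * (2 * b) ^ n * 2 ^ n := by
        rw [← mul_pow, ← mul_pow]; ring_nf
      rw [e, ← mul_assoc] at h3
      exact Nat.le_of_mul_le_mul_left h3 (by positivity)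
    have h5 : n ≤ 2 * k * M := by
      have h6 : (2 * k) ^ M ≤ (2 ^ (2 * k)) ^ M :=
        Nat.pow_le_pow_left (Nat.lt_two_pow_self).le M
      rw [← pow_mul] at h6
      exact (Nat.pow_le_pow_iff_right (by norm_num)).1 (h4.trans h6)
    set D := 4 * (L + 1) ^ 2 with hD
    have hD1 : 1 ≤ D := by rw [hD]; nlinarith
    have hD2 : D ≤ 16 * k ^ 2 := by
      rw [hD]
      calc 4 * (L + 1) ^ 2 ≤ 4 * (2 * k) ^ 2 := by gcongr
        _ = _ := by ring
    calc n ≤ 2 * k * M := h5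
      _ ≤ 2 * k * (2 * k * D * (2 * (s + k).choose s * (3 * (b * D)))) := by
          rw [hM]
          have : 2 * (b * D) + 1 ≤ 3 * (b * D) := by
            have : 1 ≤ b * D := Nat.one_le_iff_ne_zero.2 (by positivity)
            omega
          gcongr
      _ = 24 * b * k ^ 2 * D ^ 2 * (s + k).choose s := by ring
      _ ≤ 24 * b * k ^ 2 * (16 * k ^ 2) ^ 2 * (s + k).choose s := by gcongr
      _ = 6144 * b * k ^ 6 * (s + k).choose s := by ring

end Pool.Agent.W967.AR
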